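import Pool.Agent.Lib.MP_b4a791_lc.C.Defs

/-! Compactness of Cantor space in the form needed. -/

namespace Pool.Agent.Lib.MP_b4a791_lc

/-- initial segment of a point of Cantor space -/
private def konigPre (x : ℕ → Bool) (k : ℕ) : List Bool := (List.range k).map x

private theorem konigPre_ofFn (x : ℕ → Bool) (k : ℕ) :
    konigPre x k = List.ofFn fun i : Fin k => x i := by
  unfold konigPre
  refine List.ext_getElem (by simp) fun i h1 h2 => ?_
  simp

private theorem konigPre_closed (P : List Bool → Prop) (k : ℕ) :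
    IsClosed {x : ℕ → Bool | P (konigPre x k)} := by
  have h1 : {x : ℕ → Bool | P (konigPre x k)} =
      (fun (x : ℕ → Bool) (i : Fin k) => x i) ⁻¹' {y | P (List.ofFn y)} := by
    ext x
    simp only [Set.mem_ofPred_eq, Set.mem_preimage, konigPre_ofFn]
  rw [h1]
  refine IsClosed.preimage ?_ (isClosed_discrete _)
  fun_prop

open Classical in
private theorem konigPre_pre (D : Set ℕ) (k : ℕ) :
    konigPre (fun i => decide (i ∈ D)) k = pre D k := rfl

private theorem pre_konigPre (x : ℕ → Bool) (k : ℕ) :
    pre {i | x i = true} k = konigPre x k := by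
  unfold pre konigPre
  refine List.map_congr_left fun i _ => ?_
  simp

/-- König's lemma: a monotone property of strings that holds for some initial segment of every
set holds uniformly at some length. -/
theorem konig (Q : List Bool → Prop) (hQ : ∀ σ τ, σ <+: τ → Q σ → Q τ)
    (h : ∀ D : Set ℕ, ∃ k, Q (pre D k)) : ∃ k, ∀ D : Set ℕ, Q (pre D k) := by
  classical
  by_contra hcon
  push Not at hcon
  obtain ⟨x, hx⟩ := IsCompact.nonempty_iInter_of_sequence_nonempty_isCompact_isClosed
    (fun k => {x : ℕ → Bool | ¬ Q (konigPre x k)})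
    (fun k x hx => by
      intro hq
      apply hx
      rw [← pre_konigPre] at hq ⊢
      exact hQ _ _ (pre_prefix _ (Nat.le_succ k)) hq)
    (fun k => by
      obtain ⟨D, hD⟩ := hcon k
      refine ⟨fun i => decide (i ∈ D), ?_⟩
      show ¬ Q (konigPre (fun i => decide (i ∈ D)) k)
      rw [konigPre_pre]
      exact hD)
    (konigPre_closed (fun s => ¬ Q s) 0).isCompact
    (fun k => konigPre_closed (fun s => ¬ Q s) k)
  obtain ⟨k, hk⟩ := h {i | x i = true}
  rw [pre_konigPre] at hk
  exact Set.mem_iInter.1 hx k hk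

/-- Nested nonempty `Π⁰₁` classes have a common element. -/
theorem piC_nested (O : Set ℕ) (T : ℕ → List Bool → List Bool → Prop)
    (h : ∀ j, PiC O (T (j + 1)) ⊆ PiC O (T j)) (hne : ∀ j, (PiC O (T j)).Nonempty) :
    ∃ D, ∀ j, D ∈ PiC O (T j) := by
  classical
  have hcl : ∀ j, IsClosed {x : ℕ → Bool | ∀ k, T j (pre O k) (konigPre x k)} := by
    intro j
    have h1 : {x : ℕ → Bool | ∀ k, T j (pre O k) (konigPre x k)} =
        ⋂ k, {x : ℕ → Bool | T j (pre O k) (konigPre x k)} := by
      ext x
      simp
    rw [h1]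
    exact isClosed_iInter fun k => konigPre_closed (fun s => T j (pre O k) s) k
  obtain ⟨x, hx⟩ := IsCompact.nonempty_iInter_of_sequence_nonempty_isCompact_isClosed
    (fun j => {x : ℕ → Bool | ∀ k, T j (pre O k) (konigPre x k)})
    (fun j x hx => by
      have h1 : {i | x i = true} ∈ PiC O (T (j + 1)) := fun k => by
        rw [pre_konigPre]
        exact hx k
      intro k
      have h2 := h j h1 k
      rwa [pre_konigPre] at h2)
    (fun j => by
      obtain ⟨D, hD⟩ := hne j
      refine ⟨fun i => decide (i ∈ D), fun k => ?_⟩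
      rw [konigPre_pre]
      exact hD k)
    (hcl 0).isCompact hcl
  refine ⟨{i | x i = true}, fun j k => ?_⟩
  rw [pre_konigPre]
  exact Set.mem_iInter.1 hx j k

end Pool.Agent.Lib.MP_b4a791_lc
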