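import Pool.Agent.Lib.MP_b4a791_lc.C.Prim
import Pool.Agent.Lib.MP_b4a791_lc.C.Konig

/-!
The relations used in the requirement step of the Mathias forcing. The oracle is
`O = join X (join Z Y)`; in an oracle string `σ` the bit of `X` at `x` is `σ[2x]`, the bit of
`join Z Y` at `x` is `σ[2x+1]`, the bit of `Y` at `x` is `σ[4x+3]`.
-/

namespace Pool.Agent.Lib.MP_b4a791_lc

/-- Bit of `X`. -/
def bX (σ : List Bool) (x : ℕ) : Bool := (σ[2 * x]?).getD false

/-- The string of `join Z Y` of length `m`. -/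
def sW (σ : List Bool) (m : ℕ) : List Bool :=
  (List.range m).map fun x => (σ[2 * x + 1]?).getD false

/-- Color read from the string. -/
def cS (σ : List Bool) (x y : ℕ) : Bool := (σ[4 * prc x y + 3]?).getD false

/-- All colors of pairs of elements of `E` can be read from `σ`. -/
def rdy (σ : List Bool) (E : List ℕ) : Prop := ∀ x ∈ E, ∀ y ∈ E, 4 * prc x y + 3 < σ.length

/-- `E` avoids the pattern, with the colors read from `σ`. -/
def avS (σ : List Bool) (E : List ℕ) : Prop :=
  ∀ x0 ∈ E, ∀ x1 ∈ E, ∀ x2 ∈ E, ∀ x3 ∈ E, ¬ Copy (cS σ) x0 x1 x2 x3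

/-- The string of length `m` of the set of elements of `G`. -/
def sL (G : List ℕ) (m : ℕ) : List Bool := (List.range m).map fun x => decide (x ∈ G)

/-- `E` is usable: contained in `X`, homogeneous for `δ`, colors can be read, avoids the pattern,
and `R` provides `D` above `n` at length `2 * m`, where the string of `join Z Y` of length `m` can
be read. -/
def use (F : List ℕ) (R : List Bool → ℕ → List ℕ → Prop) (σ δ : List Bool) (n : ℕ)
    (E : List ℕ) (m : ℕ) (D : List ℕ) : Prop :=
  (∀ e ∈ E, 2 * e < σ.length ∧ bX σ e = true) ∧ rdy σ E ∧ avS σ E ∧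
    (∃ b ∈ [false, true], ∀ e ∈ E, δ[e]? = some b) ∧ 2 * m < σ.length ∧
    R (jn (sL (F ++ E) m) (sW σ m) m) n D ∧ Above n D

private lemma MPlus_all {α β : Type*} [Primcodable α] [Primcodable β] {f : α → List β}
    {p : α → β → Prop} (hf : Primrec f) (hp : PrimrecPred fun q : α × β => p q.1 q.2) :
    PrimrecPred fun a => ∀ b ∈ f a, p a b := by
  have h : PrimrecRel fun (b : β) (a : α) => p a b := hp.comp (Primrec.snd.pair Primrec.fst)
  exact h.forall_mem_list.comp hf Primrec.id

private lemma MPlus_ex {α β : Type*} [Primcodable α] [Primcodable β] {f : α → List β}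
    {p : α → β → Prop} (hf : Primrec f) (hp : PrimrecPred fun q : α × β => p q.1 q.2) :
    PrimrecPred fun a => ∃ b ∈ f a, p a b := by
  have h : PrimrecRel fun (b : β) (a : α) => p a b := hp.comp (Primrec.snd.pair Primrec.fst)
  exact h.exists_mem_list.comp hf Primrec.id

private lemma MPlus_mem : PrimrecPred fun q : List ℕ × ℕ => q.2 ∈ q.1 := by
  have h : PrimrecPred fun q : List ℕ × ℕ => ∃ a ∈ q.1, a = q.2 :=
    MPlus_ex (f := fun q : List ℕ × ℕ => q.1) (p := fun q a => a = q.2) Primrec.fst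
      (Primrec.eq.comp Primrec.snd (Primrec.snd.comp Primrec.fst))
  exact h.of_eq fun q => by simp

private lemma MPlus_prc : Primrec₂ prc := by
  unfold prc
  have h : Primrec fun p : ℕ × ℕ => p.1 + p.2 := Primrec.nat_add
  exact Primrec.nat_add.comp (Primrec.nat_mul.comp h h) Primrec.fst

private lemma MPlus_bX : Primrec₂ bX := by
  unfold bX
  exact Primrec.option_getD.comp (Primrec.list_getElem?.comp Primrec.fst
    (Primrec.nat_mul.comp (Primrec.const 2) Primrec.snd)) (Primrec.const false)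

private lemma MPlus_sW : Primrec₂ sW := by
  unfold sW
  refine Primrec.list_map (Primrec.list_range.comp Primrec.snd) ?_
  refine Primrec.option_getD.comp (Primrec.list_getElem?.comp (Primrec.fst.comp Primrec.fst) ?_)
    (Primrec.const false)
  exact Primrec.nat_add.comp (Primrec.nat_mul.comp (Primrec.const 2) Primrec.snd)
    (Primrec.const 1)

private lemma MPlus_cS : Primrec fun q : List Bool × ℕ × ℕ => cS q.1 q.2.1 q.2.2 := by
  unfold cS
  refine Primrec.option_getD.comp (Primrec.list_getElem?.comp Primrec.fst ?_)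
    (Primrec.const false)
  exact Primrec.nat_add.comp (Primrec.nat_mul.comp (Primrec.const 4)
    (MPlus_prc.comp (Primrec.fst.comp Primrec.snd) (Primrec.snd.comp Primrec.snd)))
    (Primrec.const 3)

private lemma MPlus_sL : Primrec₂ sL := by
  unfold sL
  refine Primrec.list_map (Primrec.list_range.comp Primrec.snd) ?_
  exact (MPlus_mem.comp ((Primrec.fst.comp Primrec.fst).pair Primrec.snd)).decide

private lemma MPlus_copy : PrimrecPred fun q : (List Bool × ℕ × ℕ) × ℕ × ℕ =>
    Copy (cS q.1.1) q.1.2.1 q.1.2.2 q.2.1 q.2.2 := by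
  unfold Copy
  have hs : Primrec fun q : (List Bool × ℕ × ℕ) × ℕ × ℕ => q.1.1 :=
    Primrec.fst.comp Primrec.fst
  have h0 : Primrec fun q : (List Bool × ℕ × ℕ) × ℕ × ℕ => q.1.2.1 :=
    Primrec.fst.comp (Primrec.snd.comp Primrec.fst)
  have h1 : Primrec fun q : (List Bool × ℕ × ℕ) × ℕ × ℕ => q.1.2.2 :=
    Primrec.snd.comp (Primrec.snd.comp Primrec.fst)
  have h2 : Primrec fun q : (List Bool × ℕ × ℕ) × ℕ × ℕ => q.2.1 :=
    Primrec.fst.comp Primrec.snd
  have h3 : Primrec fun q : (List Bool × ℕ × ℕ) × ℕ × ℕ => q.2.2 :=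
    Primrec.snd.comp Primrec.snd
  refine (Primrec.nat_lt.comp h0 h1).and ((Primrec.nat_lt.comp h1 h2).and
    ((Primrec.nat_lt.comp h2 h3).and ?_))
  refine (Primrec.eq.comp (MPlus_cS.comp (hs.pair (h0.pair h1))) (Primrec.const false)).and ?_
  refine (Primrec.eq.comp (MPlus_cS.comp (hs.pair (h0.pair h2))) (Primrec.const true)).and ?_
  refine (Primrec.eq.comp (MPlus_cS.comp (hs.pair (h0.pair h3))) (Primrec.const false)).and ?_
  refine (Primrec.eq.comp (MPlus_cS.comp (hs.pair (h1.pair h2))) (Primrec.const true)).and ?_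
  refine (Primrec.eq.comp (MPlus_cS.comp (hs.pair (h1.pair h3))) (Primrec.const true)).and ?_
  exact Primrec.eq.comp (MPlus_cS.comp (hs.pair (h2.pair h3))) (Primrec.const false)

private lemma MPlus_rdy : PrimrecPred fun q : List Bool × List ℕ => rdy q.1 q.2 := by
  unfold rdy
  refine MPlus_all (f := fun q : List Bool × List ℕ => q.2)
    (p := fun q x => ∀ y ∈ q.2, 4 * prc x y + 3 < q.1.length) Primrec.snd ?_
  refine MPlus_all (f := fun q : (List Bool × List ℕ) × ℕ => q.1.2)
    (p := fun q y => 4 * prc q.2 y + 3 < q.1.1.length) (Primrec.snd.comp Primrec.fst) ?_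
  refine Primrec.nat_lt.comp ?_ (Primrec.list_length.comp (Primrec.fst.comp
    (Primrec.fst.comp Primrec.fst)))
  exact Primrec.nat_add.comp (Primrec.nat_mul.comp (Primrec.const 4)
    (MPlus_prc.comp (Primrec.snd.comp Primrec.fst) Primrec.snd)) (Primrec.const 3)

private lemma MPlus_avS : PrimrecPred fun q : List Bool × List ℕ => avS q.1 q.2 := by
  unfold avS
  refine MPlus_all (f := fun q : List Bool × List ℕ => q.2)
    (p := fun q x0 => ∀ x1 ∈ q.2, ∀ x2 ∈ q.2, ∀ x3 ∈ q.2, ¬ Copy (cS q.1) x0 x1 x2 x3)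
    Primrec.snd ?_
  refine MPlus_all (f := fun q : (List Bool × List ℕ) × ℕ => q.1.2)
    (p := fun q x1 => ∀ x2 ∈ q.1.2, ∀ x3 ∈ q.1.2, ¬ Copy (cS q.1.1) q.2 x1 x2 x3)
    (Primrec.snd.comp Primrec.fst) ?_
  refine MPlus_all (f := fun q : ((List Bool × List ℕ) × ℕ) × ℕ => q.1.1.2)
    (p := fun q x2 => ∀ x3 ∈ q.1.1.2, ¬ Copy (cS q.1.1.1) q.1.2 q.2 x2 x3)
    (Primrec.snd.comp (Primrec.fst.comp Primrec.fst)) ?_
  refine MPlus_all (f := fun q : (((List Bool × List ℕ) × ℕ) × ℕ) × ℕ => q.1.1.1.2)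
    (p := fun q x3 => ¬ Copy (cS q.1.1.1.1) q.1.1.2 q.1.2 q.2 x3)
    (Primrec.snd.comp (Primrec.fst.comp (Primrec.fst.comp Primrec.fst))) ?_
  refine PrimrecPred.not ?_
  exact MPlus_copy.comp (f := fun q : ((((List Bool × List ℕ) × ℕ) × ℕ) × ℕ) × ℕ =>
    ((q.1.1.1.1.1, q.1.1.1.2, q.1.1.2), q.1.2, q.2)) (by
      refine Primrec.pair (Primrec.pair ?_ (Primrec.pair ?_ ?_)) (Primrec.pair ?_ ?_)
      · exact Primrec.fst.comp (Primrec.fst.comp (Primrec.fst.comp
          (Primrec.fst.comp Primrec.fst)))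
      · exact Primrec.snd.comp (Primrec.fst.comp (Primrec.fst.comp Primrec.fst))
      · exact Primrec.snd.comp (Primrec.fst.comp Primrec.fst)
      · exact Primrec.snd.comp Primrec.fst
      · exact Primrec.snd)

/-- Primitive recursiveness of `use`. -/
theorem primrecPred_use (F : List ℕ) {R : List Bool → ℕ → List ℕ → Prop} (hR : PR3 R) :
    PrimrecPred fun p : (List Bool × List Bool) × ℕ × List ℕ × ℕ × List ℕ =>
      use F R p.1.1 p.1.2 p.2.1 p.2.2.1 p.2.2.2.1 p.2.2.2.2 := by
  unfold use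
  have hs : Primrec fun p : (List Bool × List Bool) × ℕ × List ℕ × ℕ × List ℕ => p.1.1 :=
    Primrec.fst.comp Primrec.fst
  have hd : Primrec fun p : (List Bool × List Bool) × ℕ × List ℕ × ℕ × List ℕ => p.1.2 :=
    Primrec.snd.comp Primrec.fst
  have hn : Primrec fun p : (List Bool × List Bool) × ℕ × List ℕ × ℕ × List ℕ => p.2.1 :=
    Primrec.fst.comp Primrec.snd
  have hE : Primrec fun p : (List Bool × List Bool) × ℕ × List ℕ × ℕ × List ℕ => p.2.2.1 :=
    Primrec.fst.comp (Primrec.snd.comp Primrec.snd)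
  have hm : Primrec fun p : (List Bool × List Bool) × ℕ × List ℕ × ℕ × List ℕ => p.2.2.2.1 :=
    Primrec.fst.comp (Primrec.snd.comp (Primrec.snd.comp Primrec.snd))
  have hD : Primrec fun p : (List Bool × List Bool) × ℕ × List ℕ × ℕ × List ℕ => p.2.2.2.2 :=
    Primrec.snd.comp (Primrec.snd.comp (Primrec.snd.comp Primrec.snd))
  refine PrimrecPred.and ?_ (PrimrecPred.and (MPlus_rdy.comp (hs.pair hE))
    (PrimrecPred.and (MPlus_avS.comp (hs.pair hE)) (PrimrecPred.and ?_
      (PrimrecPred.and ?_ (PrimrecPred.and ?_ (primrecPred_above.comp (hn.pair hD)))))))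
  · refine MPlus_all
      (f := fun p : (List Bool × List Bool) × ℕ × List ℕ × ℕ × List ℕ => p.2.2.1)
      (p := fun p e => 2 * e < p.1.1.length ∧ bX p.1.1 e = true) hE ?_
    refine PrimrecPred.and ?_ ?_
    · exact Primrec.nat_lt.comp (Primrec.nat_mul.comp (Primrec.const 2) Primrec.snd)
        (Primrec.list_length.comp (hs.comp Primrec.fst))
    · exact Primrec.eq.comp (MPlus_bX.comp (hs.comp Primrec.fst) Primrec.snd)
        (Primrec.const true)
  · refine MPlus_ex
      (f := fun _ : (List Bool × List Bool) × ℕ × List ℕ × ℕ × List ℕ => [false, true])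
      (p := fun p b => ∀ e ∈ p.2.2.1, p.1.2[e]? = some b) (Primrec.const _) ?_
    refine MPlus_all
      (f := fun q : ((List Bool × List Bool) × ℕ × List ℕ × ℕ × List ℕ) × Bool => q.1.2.2.1)
      (p := fun q e => q.1.1.2[e]? = some q.2) (hE.comp Primrec.fst) ?_
    exact Primrec.eq.comp (Primrec.list_getElem?.comp (hd.comp (Primrec.fst.comp Primrec.fst))
      Primrec.snd) (Primrec.option_some.comp (Primrec.snd.comp Primrec.fst))
  · exact Primrec.nat_lt.comp (Primrec.nat_mul.comp (Primrec.const 2) hm)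
      (Primrec.list_length.comp hs)
  · exact hR.comp (f := fun p : (List Bool × List Bool) × ℕ × List ℕ × ℕ × List ℕ =>
      (jn (sL (F ++ p.2.2.1) p.2.2.2.1) (sW p.1.1 p.2.2.2.1) p.2.2.2.1, p.2.1, p.2.2.2.2)) (by
        refine Primrec.pair ?_ (hn.pair hD)
        exact primrec_jn.comp (Primrec.pair (Primrec.pair
          (MPlus_sL.comp (Primrec.list_append.comp (Primrec.const F) hE) hm)
          (MPlus_sW.comp hs hm)) hm))

/-- The relation used when every `2`-coloring of `X` has a usable set. -/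
def mplus (F : List ℕ) (R : List Bool → ℕ → List ℕ → Prop) (σ : List Bool) (n : ℕ)
    (Dp : List ℕ) : Prop :=
  (∀ δ ∈ allStr σ.length, ∃ E ∈ allL σ.length, ∃ m ∈ List.range σ.length, ∃ D ∈ allL σ.length,
    use F R σ δ n E m D) ∧
  (∀ D ∈ allL σ.length, ∀ m ∈ List.range σ.length, ∀ E ∈ allL σ.length,
    ∀ δ ∈ allStr σ.length, use F R σ δ n E m D → ∀ y ∈ D, y ∈ Dp) ∧
  ∀ y ∈ Dp, n ≤ y

theorem pr3_mplus (F : List ℕ) {R : List Bool → ℕ → List ℕ → Prop} (hR : PR3 R) :
    PR3 (mplus F R) := by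
  unfold mplus
  have hs : Primrec fun p : List Bool × ℕ × List ℕ => p.1 := Primrec.fst
  have hn : Primrec fun p : List Bool × ℕ × List ℕ => p.2.1 := Primrec.fst.comp Primrec.snd
  have hDp : Primrec fun p : List Bool × ℕ × List ℕ => p.2.2 := Primrec.snd.comp Primrec.snd
  have hlen : Primrec fun p : List Bool × ℕ × List ℕ => p.1.length := Primrec.list_length.comp hs
  refine PrimrecPred.and ?_ (PrimrecPred.and ?_ ?_)
  · refine MPlus_all (f := fun p : List Bool × ℕ × List ℕ => allStr p.1.length)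
      (p := fun p δ => ∃ E ∈ allL p.1.length, ∃ m ∈ List.range p.1.length,
        ∃ D ∈ allL p.1.length, use F R p.1 δ p.2.1 E m D) (primrec_allStr.comp hlen) ?_
    refine MPlus_ex (f := fun q : (List Bool × ℕ × List ℕ) × List Bool => allL q.1.1.length)
      (p := fun q E => ∃ m ∈ List.range q.1.1.length,
        ∃ D ∈ allL q.1.1.length, use F R q.1.1 q.2 q.1.2.1 E m D)
      (primrec_allL.comp (hlen.comp Primrec.fst)) ?_
    refine MPlus_ex
      (f := fun q : ((List Bool × ℕ × List ℕ) × List Bool) × List ℕ => List.range q.1.1.1.length)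
      (p := fun q m => ∃ D ∈ allL q.1.1.1.length, use F R q.1.1.1 q.1.2 q.1.1.2.1 q.2 m D)
      (Primrec.list_range.comp (hlen.comp (Primrec.fst.comp Primrec.fst))) ?_
    refine MPlus_ex
      (f := fun q : (((List Bool × ℕ × List ℕ) × List Bool) × List ℕ) × ℕ =>
        allL q.1.1.1.1.length)
      (p := fun q D => use F R q.1.1.1.1 q.1.1.2 q.1.1.1.2.1 q.1.2 q.2 D)
      (primrec_allL.comp (hlen.comp (Primrec.fst.comp (Primrec.fst.comp Primrec.fst)))) ?_
    exact (primrecPred_use F hR).comp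
      (f := fun q : ((((List Bool × ℕ × List ℕ) × List Bool) × List ℕ) × ℕ) × List ℕ =>
        ((q.1.1.1.1.1, q.1.1.1.2), q.1.1.1.1.2.1, q.1.1.2, q.1.2, q.2)) (by
        have h1 : Primrec fun q : ((((List Bool × ℕ × List ℕ) × List Bool) × List ℕ) × ℕ) ×
            List ℕ => q.1.1.1 := Primrec.fst.comp (Primrec.fst.comp Primrec.fst)
        refine Primrec.pair (Primrec.pair ?_ ?_) (Primrec.pair ?_ (Primrec.pair ?_
          (Primrec.pair ?_ ?_)))
        · exact hs.comp (Primrec.fst.comp h1)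
        · exact Primrec.snd.comp h1
        · exact hn.comp (Primrec.fst.comp h1)
        · exact Primrec.snd.comp (Primrec.fst.comp Primrec.fst)
        · exact Primrec.snd.comp Primrec.fst
        · exact Primrec.snd)
  · refine MPlus_all (f := fun p : List Bool × ℕ × List ℕ => allL p.1.length)
      (p := fun p D => ∀ m ∈ List.range p.1.length, ∀ E ∈ allL p.1.length,
        ∀ δ ∈ allStr p.1.length, use F R p.1 δ p.2.1 E m D → ∀ y ∈ D, y ∈ p.2.2)
      (primrec_allL.comp hlen) ?_
    refine MPlus_all (f := fun q : (List Bool × ℕ × List ℕ) × List ℕ => List.range q.1.1.length)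
      (p := fun q m => ∀ E ∈ allL q.1.1.length,
        ∀ δ ∈ allStr q.1.1.length, use F R q.1.1 δ q.1.2.1 E m q.2 → ∀ y ∈ q.2, y ∈ q.1.2.2)
      (Primrec.list_range.comp (hlen.comp Primrec.fst)) ?_
    refine MPlus_all (f := fun q : ((List Bool × ℕ × List ℕ) × List ℕ) × ℕ =>
        allL q.1.1.1.length)
      (p := fun q E => ∀ δ ∈ allStr q.1.1.1.length,
        use F R q.1.1.1 δ q.1.1.2.1 E q.2 q.1.2 → ∀ y ∈ q.1.2, y ∈ q.1.1.2.2)
      (primrec_allL.comp (hlen.comp (Primrec.fst.comp Primrec.fst))) ?_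
    refine MPlus_all (f := fun q : (((List Bool × ℕ × List ℕ) × List ℕ) × ℕ) × List ℕ =>
        allStr q.1.1.1.1.length)
      (p := fun q δ => use F R q.1.1.1.1 δ q.1.1.1.2.1 q.2 q.1.2 q.1.1.2 →
        ∀ y ∈ q.1.1.2, y ∈ q.1.1.1.2.2)
      (primrec_allStr.comp (hlen.comp (Primrec.fst.comp (Primrec.fst.comp Primrec.fst)))) ?_
    have hq : Primrec fun q : ((((List Bool × ℕ × List ℕ) × List ℕ) × ℕ) × List ℕ) ×
        List Bool => q.1.1.1.1 :=
      Primrec.fst.comp (Primrec.fst.comp (Primrec.fst.comp Primrec.fst))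
    have hD : Primrec fun q : ((((List Bool × ℕ × List ℕ) × List ℕ) × ℕ) × List ℕ) ×
        List Bool => q.1.1.1.2 :=
      Primrec.snd.comp (Primrec.fst.comp (Primrec.fst.comp Primrec.fst))
    have hu := (primrecPred_use F hR).comp
      (f := fun q : ((((List Bool × ℕ × List ℕ) × List ℕ) × ℕ) × List ℕ) × List Bool =>
        ((q.1.1.1.1.1, q.2), q.1.1.1.1.2.1, q.1.2, q.1.1.2, q.1.1.1.2)) (by
        refine Primrec.pair (Primrec.pair ?_ ?_) (Primrec.pair ?_ (Primrec.pair ?_
          (Primrec.pair ?_ ?_)))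
        · exact hs.comp hq
        · exact Primrec.snd
        · exact hn.comp hq
        · exact Primrec.snd.comp Primrec.fst
        · exact Primrec.snd.comp (Primrec.fst.comp Primrec.fst)
        · exact hD)
    have hy : PrimrecPred fun q : ((((List Bool × ℕ × List ℕ) × List ℕ) × ℕ) × List ℕ) ×
        List Bool => ∀ y ∈ q.1.1.1.2, y ∈ q.1.1.1.1.2.2 :=
      MPlus_all (f := fun q : ((((List Bool × ℕ × List ℕ) × List ℕ) × ℕ) × List ℕ) ×
        List Bool => q.1.1.1.2) (p := fun q y => y ∈ q.1.1.1.1.2.2) hD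
        (MPlus_mem.comp ((hDp.comp (hq.comp Primrec.fst)).pair Primrec.snd))
    exact (hu.not.or hy).of_eq fun q => by
      constructor
      · rintro (h | h) h'
        · exact absurd h' h
        · exact h
      · intro h
        by_cases h' : use F R q.1.1.1.1.1 q.2 q.1.1.1.1.2.1 q.1.2 q.1.1.2 q.1.1.1.2
        · exact Or.inr (h h')
        · exact Or.inl h'
  · exact MPlus_all (f := fun p : List Bool × ℕ × List ℕ => p.2.2)
      (p := fun p y => p.2.1 ≤ y) hDp (Primrec.nat_le.comp (hn.comp Primrec.fst) Primrec.snd)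

/-- The tree used when for `n` some `2`-coloring has no usable set. -/
def mtree (F : List ℕ) (R : List Bool → ℕ → List ℕ → Prop) (n : ℕ) (σ δ : List Bool) : Prop :=
  ∀ E ∈ allL σ.length, ∀ m ∈ List.range σ.length, ∀ D ∈ allL σ.length, ¬ use F R σ δ n E m D

theorem pr2_mtree (F : List ℕ) {R : List Bool → ℕ → List ℕ → Prop} (hR : PR3 R) (n : ℕ) :
    PR2 (mtree F R n) := by
  unfold mtree
  have hs : Primrec fun p : List Bool × List Bool => p.1 := Primrec.fst
  have hlen : Primrec fun p : List Bool × List Bool => p.1.length := Primrec.list_length.comp hs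
  refine MPlus_all (f := fun p : List Bool × List Bool => allL p.1.length)
    (p := fun p E => ∀ m ∈ List.range p.1.length, ∀ D ∈ allL p.1.length,
      ¬ use F R p.1 p.2 n E m D) (primrec_allL.comp hlen) ?_
  refine MPlus_all (f := fun q : (List Bool × List Bool) × List ℕ => List.range q.1.1.length)
    (p := fun q m => ∀ D ∈ allL q.1.1.length, ¬ use F R q.1.1 q.1.2 n q.2 m D)
    (Primrec.list_range.comp (hlen.comp Primrec.fst)) ?_
  refine MPlus_all (f := fun q : ((List Bool × List Bool) × List ℕ) × ℕ => allL q.1.1.1.length)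
    (p := fun q D => ¬ use F R q.1.1.1 q.1.1.2 n q.1.2 q.2 D)
    (primrec_allL.comp (hlen.comp (Primrec.fst.comp Primrec.fst))) ?_
  refine PrimrecPred.not ?_
  exact (primrecPred_use F hR).comp
    (f := fun q : (((List Bool × List Bool) × List ℕ) × ℕ) × List ℕ =>
      (q.1.1.1, n, q.1.1.2, q.1.2, q.2)) (by
      refine Primrec.pair ?_ (Primrec.pair (Primrec.const n) (Primrec.pair ?_
        (Primrec.pair ?_ ?_)))
      · exact Primrec.fst.comp (Primrec.fst.comp Primrec.fst)
      · exact Primrec.snd.comp (Primrec.fst.comp Primrec.fst)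
      · exact Primrec.snd.comp Primrec.fst
      · exact Primrec.snd)

private theorem MPlusU_get {α : Type} {l l' : List α} (h : l <+: l') {i : ℕ} (hi : i < l.length) :
    l'[i]? = l[i]? := by
  obtain ⟨t, rfl⟩ := h
  exact List.getElem?_append_left hi

private theorem MPlusU_bX {σ σ' : List Bool} (h : σ <+: σ') {x : ℕ} (hx : 2 * x < σ.length) :
    bX σ' x = bX σ x := by
  unfold bX
  rw [MPlusU_get h hx]

private theorem MPlusU_cS {σ σ' : List Bool} (h : σ <+: σ') {x y : ℕ}
    (hx : 4 * prc x y + 3 < σ.length) : cS σ' x y = cS σ x y := by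
  unfold cS
  rw [MPlusU_get h hx]

private theorem MPlusU_sW {σ σ' : List Bool} (h : σ <+: σ') {m : ℕ} (hm : 2 * m < σ.length) :
    sW σ' m = sW σ m := by
  unfold sW
  apply List.map_congr_left
  intro x hx
  rw [List.mem_range] at hx
  rw [MPlusU_get h (by omega)]

/-- `use` persists along the oracle and along `δ`. -/
theorem use_mono {F : List ℕ} {R : List Bool → ℕ → List ℕ → Prop} {σ σ' δ δ' : List Bool}
    {n : ℕ} {E : List ℕ} {m : ℕ} {D : List ℕ} (hσ : σ <+: σ') (hδ : δ <+: δ')
    (h : use F R σ δ n E m D) : use F R σ' δ' n E m D := by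
  obtain ⟨h1, h2, h3, ⟨b, hb, h4⟩, h5, h6, h7⟩ := h
  have hl := hσ.length_le
  refine ⟨?_, ?_, ?_, ⟨b, hb, ?_⟩, by omega, ?_, h7⟩
  · intro e he
    obtain ⟨a1, a2⟩ := h1 e he
    exact ⟨by omega, by rw [MPlusU_bX hσ a1]; exact a2⟩
  · intro x hx y hy
    have := h2 x hx y hy
    omega
  · intro x0 m0 x1 m1 x2 m2 x3 m3 hC
    apply h3 x0 m0 x1 m1 x2 m2 x3 m3
    unfold Copy at hC ⊢
    rw [MPlusU_cS hσ (h2 x0 m0 x1 m1), MPlusU_cS hσ (h2 x0 m0 x2 m2), MPlusU_cS hσ (h2 x0 m0 x3 m3),
      MPlusU_cS hσ (h2 x1 m1 x2 m2), MPlusU_cS hσ (h2 x1 m1 x3 m3), MPlusU_cS hσ (h2 x2 m2 x3 m3)] at hC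
    exact hC
  · intro e he
    have a := h4 e he
    have hi : e < δ.length := by
      by_contra hc
      rw [List.getElem?_eq_none (by omega)] at a
      exact absurd a (by simp)
    rw [MPlusU_get hδ hi]
    exact a
  · rw [MPlusU_sW hσ h5]
    exact h6

private theorem MPlusU_pre_t (X : Set ℕ) {n i : ℕ} (h : i < n) (hx : i ∈ X) :
    (pre X n)[i]? = some true := by
  rw [getElem?_pre _ _ _ h]
  simp [hx]

private theorem MPlusU_pre_f (X : Set ℕ) {n i : ℕ} (h : i < n) (hx : i ∉ X) :
    (pre X n)[i]? = some false := by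
  rw [getElem?_pre _ _ _ h]
  simp [hx]

private theorem MPlusU_pre_ti (X : Set ℕ) {n i : ℕ} (h : i < n) (hx : (pre X n)[i]? = some true) :
    i ∈ X := by
  by_contra hc
  rw [MPlusU_pre_f X h hc] at hx
  exact absurd hx (by simp)

private theorem MPlusU_pre_fi (X : Set ℕ) {n i : ℕ} (h : i < n) (hx : (pre X n)[i]? = some false) :
    i ∉ X := by
  intro hc
  rw [MPlusU_pre_t X h hc] at hx
  exact absurd hx (by simp)

/-- entries of two initial segments agree -/
private theorem MPlusU_pre_eq (X W : Set ℕ) {n m i j : ℕ} (hi : i < n) (hj : j < m)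
    (h : i ∈ X ↔ j ∈ W) : (pre X n)[i]? = (pre W m)[j]? := by
  by_cases hx : i ∈ X
  · rw [MPlusU_pre_t X hi hx, MPlusU_pre_t W hj (h.1 hx)]
  · rw [MPlusU_pre_f X hi hx, MPlusU_pre_f W hj (fun hc => hx (h.2 hc))]

private theorem MPlusU_mem_join0 (X W : Set ℕ) (x : ℕ) : 2 * x ∈ join X W ↔ x ∈ X := by
  unfold join
  constructor
  · rintro (⟨m, hm, e⟩ | ⟨m, hm, e⟩)
    · have : x = m := by omega
      rw [this]
      exact hm
    · omega
  · intro h
    exact Or.inl ⟨x, h, rfl⟩

private theorem MPlusU_mem_join1 (X W : Set ℕ) (x : ℕ) : 2 * x + 1 ∈ join X W ↔ x ∈ W := by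
  unfold join
  constructor
  · rintro (⟨m, hm, e⟩ | ⟨m, hm, e⟩)
    · omega
    · have : x = m := by omega
      rw [this]
      exact hm
  · intro h
    exact Or.inr ⟨x, h, rfl⟩

private theorem MPlusU_bX_pre (X W : Set ℕ) (k x : ℕ) (h : 2 * x < k) :
    bX (pre (join X W) k) x = true ↔ x ∈ X := by
  unfold bX
  by_cases hx : x ∈ X
  · rw [MPlusU_pre_t _ h ((MPlusU_mem_join0 X W x).2 hx)]
    simp [hx]
  · rw [MPlusU_pre_f _ h (fun hc => hx ((MPlusU_mem_join0 X W x).1 hc))]
    simp [hx]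

private theorem MPlusU_cS_pre (X Z Y : Set ℕ) (k x y : ℕ) (h : 4 * prc x y + 3 < k) :
    cS (pre (join X (join Z Y)) k) x y = clr Y x y := by
  unfold cS clr
  have e : 4 * prc x y + 3 = 2 * (2 * prc x y + 1) + 1 := by omega
  have e2 : (4 * prc x y + 3 ∈ join X (join Z Y)) ↔ prc x y ∈ Y := by
    rw [e, MPlusU_mem_join1, MPlusU_mem_join1]
  by_cases hx : prc x y ∈ Y
  · rw [MPlusU_pre_t _ h (e2.2 hx)]
    simp [hx]
  · rw [MPlusU_pre_f _ h (fun hc => hx (e2.1 hc))]
    simp [hx]

private theorem MPlusU_sW_pre (X W : Set ℕ) (k m : ℕ) (h : 2 * m < k) :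
    sW (pre (join X W) k) m = pre W m := by
  have e : ∀ x < m, ((pre (join X W) k)[2 * x + 1]?).getD false = ((pre W m)[x]?).getD false := by
    intro x hx
    rw [MPlusU_pre_eq (join X W) W (by omega) hx (MPlusU_mem_join1 X W x)]
  unfold sW
  apply List.ext_getElem?
  intro i
  rcases lt_or_ge i m with hi | hi
  · rw [List.getElem?_map, List.getElem?_range hi, Option.map_some, e i hi]
    by_cases hx : i ∈ W
    · rw [MPlusU_pre_t W hi hx, Option.getD_some]
    · rw [MPlusU_pre_f W hi hx, Option.getD_some]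
  · rw [List.getElem?_eq_none (by simp; omega), List.getElem?_eq_none (by rw [length_pre]; omega)]

private theorem MPlusU_sL (G : List ℕ) (m : ℕ) : sL G m = pre (els G) m := by
  unfold sL
  rw [pre]
  apply List.map_congr_left
  intro x _
  exact decide_eq_decide.2 Iff.rfl

private theorem MPlusU_bound (E : List ℕ) : ∃ N, ∀ e ∈ E, e < N := by
  induction E with
  | nil => exact ⟨0, by simp⟩
  | cons a E ih =>
    obtain ⟨N, hN⟩ := ih
    refine ⟨max N (a + 1), fun e he => ?_⟩
    rcases List.mem_cons.1 he with rfl | h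
    · omega
    · have := hN e h
      omega

private theorem MPlusU_prc {x y N : ℕ} (hx : x < N) (hy : y < N) :
    prc x y < (N + N) * (N + N) + N := by
  unfold prc
  have : (x + y) * (x + y) ≤ (N + N) * (N + N) := Nat.mul_le_mul (by omega) (by omega)
  omega

/-- Meaning of `use` with true oracles. -/
theorem use_pre {F : List ℕ} {R : List Bool → ℕ → List ℕ → Prop} {X Z Y D' : Set ℕ} {n : ℕ}
    {E : List ℕ} {m : ℕ} {D : List ℕ} :
    (∃ k l, use F R (pre (join X (join Z Y)) k) (pre D' l) n E m D) ↔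
      (∀ e ∈ E, e ∈ X) ∧ Av (clr Y) (els E) ∧ ((∀ e ∈ E, e ∈ D') ∨ ∀ e ∈ E, e ∉ D') ∧
        R (pre (join (els (F ++ E)) (join Z Y)) m) n D ∧ Above n D := by
  have hjn : ∀ k, 2 * m < k → jn (sL (F ++ E) m) (sW (pre (join X (join Z Y)) k) m) m =
      pre (join (els (F ++ E)) (join Z Y)) m := by
    intro k hk
    rw [MPlusU_sL, MPlusU_sW_pre _ _ _ _ hk, ← pre_join _ _ _ _ le_rfl]
  constructor
  · rintro ⟨k, l, h1, h2, h3, ⟨b, hb, h4⟩, h5, h6, h7⟩
    rw [length_pre] at h5
    refine ⟨?_, ?_, ?_, ?_, h7⟩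
    · intro e he
      obtain ⟨a1, a2⟩ := h1 e he
      rw [length_pre] at a1
      exact (MPlusU_bX_pre _ _ _ _ a1).1 a2
    · intro x0 m0 x1 m1 x2 m2 x3 m3 hC
      apply h3 x0 m0 x1 m1 x2 m2 x3 m3
      have hr : ∀ x ∈ E, ∀ y ∈ E, cS (pre (join X (join Z Y)) k) x y = clr Y x y := by
        intro x hx y hy
        have := h2 x hx y hy
        rw [length_pre] at this
        exact MPlusU_cS_pre X Z Y k x y this
      unfold Copy
      rw [hr x0 m0 x1 m1, hr x0 m0 x2 m2, hr x0 m0 x3 m3, hr x1 m1 x2 m2, hr x1 m1 x3 m3,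
        hr x2 m2 x3 m3]
      exact hC
    · have hl : ∀ e ∈ E, e < l := by
        intro e he
        have a := h4 e he
        by_contra hc
        rw [List.getElem?_eq_none (by rw [length_pre]; omega)] at a
        exact absurd a (by simp)
      have hb' : b = false ∨ b = true := by
        cases b
        · exact Or.inl rfl
        · exact Or.inr rfl
      rcases hb' with rfl | rfl
      · right
        intro e he
        exact MPlusU_pre_fi D' (hl e he) (h4 e he)
      · left
        intro e he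
        exact MPlusU_pre_ti D' (hl e he) (h4 e he)
    · rw [← hjn k h5]
      exact h6
  · rintro ⟨h1, h2, h3, h4, h5⟩
    obtain ⟨N, hN⟩ := MPlusU_bound E
    set k : ℕ := 4 * ((N + N) * (N + N) + N) + 2 * m + 4 with hk
    have hr : ∀ x ∈ E, ∀ y ∈ E, 4 * prc x y + 3 < k := by
      intro x hx y hy
      have := MPlusU_prc (hN x hx) (hN y hy)
      omega
    have hx : ∀ e ∈ E, 2 * e < k := by
      intro e he
      have := hN e he
      omega
    refine ⟨k, N, ?_, ?_, ?_, ?_, ?_, ?_, h5⟩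
    · intro e he
      rw [length_pre]
      exact ⟨hx e he, (MPlusU_bX_pre _ _ _ _ (hx e he)).2 (h1 e he)⟩
    · intro x hx y hy
      rw [length_pre]
      exact hr x hx y hy
    · intro x0 m0 x1 m1 x2 m2 x3 m3 hC
      apply h2 x0 m0 x1 m1 x2 m2 x3 m3
      have hr' : ∀ x ∈ E, ∀ y ∈ E, cS (pre (join X (join Z Y)) k) x y = clr Y x y :=
        fun x hx y hy => MPlusU_cS_pre X Z Y k x y (hr x hx y hy)
      unfold Copy at hC
      rw [hr' x0 m0 x1 m1, hr' x0 m0 x2 m2, hr' x0 m0 x3 m3, hr' x1 m1 x2 m2, hr' x1 m1 x3 m3,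
        hr' x2 m2 x3 m3] at hC
      exact hC
    · rcases h3 with h3 | h3
      · exact ⟨true, by simp, fun e he => MPlusU_pre_t D' (hN e he) (h3 e he)⟩
      · exact ⟨false, by simp, fun e he => MPlusU_pre_f D' (hN e he) (h3 e he)⟩
    · rw [length_pre]
      omega
    · rw [hjn k (by omega)]
      exact h4

/-- Compactness for `mplus`. -/
theorem exists_mplus {F : List ℕ} {R : List Bool → ℕ → List ℕ → Prop} {O : Set ℕ} {n : ℕ}
    (h : ∀ D' : Set ℕ, ∃ k l E m D, use F R (pre O k) (pre D' l) n E m D) :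
    ∃ k Dp, mplus F R (pre O k) n Dp ∧ Above n Dp := by
  obtain ⟨k, hk⟩ := konig (fun τ => ∃ E ∈ allL τ.length, ∃ m ∈ List.range τ.length,
      ∃ D ∈ allL τ.length, use F R (pre O τ.length) τ n E m D) (by
    rintro σ τ hst ⟨E, hE, m, hm, D, hD, hu⟩
    have hl := hst.length_le
    refine ⟨E, allL_mono hl hE, m, ?_, D, allL_mono hl hD, use_mono (pre_prefix O hl) hst hu⟩
    rw [List.mem_range] at hm ⊢
    omega) (by
    intro D'
    obtain ⟨k, l, E, m, D, hu⟩ := h D'
    set K : ℕ := k + l + Encodable.encode E + m + Encodable.encode D + 1 with hK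
    refine ⟨K, ?_⟩
    show ∃ E ∈ allL (pre D' K).length, ∃ m ∈ List.range (pre D' K).length,
      ∃ D ∈ allL (pre D' K).length, use F R (pre O (pre D' K).length) (pre D' K) n E m D
    rw [length_pre]
    refine ⟨E, (mem_allL _ _).2 (by omega), m, List.mem_range.2 (by omega), D,
      (mem_allL _ _).2 (by omega), ?_⟩
    exact use_mono (pre_prefix O (by omega)) (pre_prefix D' (by omega)) hu)
  refine ⟨k, (allL k).flatten.filter (fun y => n ≤ y), ⟨?_, ?_, ?_⟩, ?_⟩
  · intro δ hδ
    rw [length_pre] at hδ ⊢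
    rw [mem_allStr] at hδ
    -- `δ` is an initial segment of a set
    have e : δ = pre {i | δ[i]? = some true} k := by
      apply List.ext_getElem?
      intro i
      rcases lt_or_ge i k with hi | hi
      · have hi' : i < δ.length := by omega
        by_cases hb : δ[i]? = some true
        · rw [MPlusU_pre_t {i | δ[i]? = some true} hi hb, hb]
        · rw [MPlusU_pre_f {i | δ[i]? = some true} hi hb]
          rw [List.getElem?_eq_getElem hi'] at hb ⊢
          have hb' : δ[i] = false := by simpa using hb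
          rw [hb']
      · rw [List.getElem?_eq_none (by omega), List.getElem?_eq_none (by rw [length_pre]; omega)]
    have h1 := hk {i | δ[i]? = some true}
    rw [← e, hδ] at h1
    exact h1
  · intro D hD m _ E _ δ _ hu y hy
    rw [length_pre] at hD
    rw [List.mem_filter, List.mem_flatten]
    exact ⟨⟨D, hD, hy⟩, by simpa using hu.2.2.2.2.2.2 y hy⟩
  · intro y hy
    rw [List.mem_filter] at hy
    simpa using hy.2
  · intro y hy
    rw [List.mem_filter] at hy
    simpa using hy.2

/-- The class of `mtree`. -/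
theorem mem_piC_mtree {F : List ℕ} {R : List Bool → ℕ → List ℕ → Prop} {O D' : Set ℕ} {n : ℕ} :
    D' ∈ PiC O (mtree F R n) ↔ ∀ k l E m D, ¬ use F R (pre O k) (pre D' l) n E m D := by
  constructor
  · intro h k l E m D hu
    set K : ℕ := k + l + Encodable.encode E + m + Encodable.encode D + 1 with hK
    have h1 : mtree F R n (pre O K) (pre D' K) := h K
    unfold mtree at h1
    rw [length_pre] at h1
    exact h1 E ((mem_allL _ _).2 (by omega)) m (List.mem_range.2 (by omega)) D
      ((mem_allL _ _).2 (by omega))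
      (use_mono (pre_prefix O (by omega)) (pre_prefix D' (by omega)) hu)
  · intro h k E _ m _ D _
    exact h k k E m D

end Pool.Agent.Lib.MP_b4a791_lc
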