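import Pool.Agent.Lib.MP_b4a791_lc.D.Defs

/-!
# MP_b4a791_lc, Part C: definitions (hyperimmunity, Π⁰₁ classes, Mathias conditions)
-/

namespace Pool.Agent.Lib.MP_b4a791_lc

/-- All elements of `D` are at least `n`. -/
def Above (n : ℕ) (D : List ℕ) : Prop := ∀ y ∈ D, n ≤ y

/-- Primitive recursive relations between an oracle string, a number and a finite set. -/
def PR3 (R : List Bool → ℕ → List ℕ → Prop) : Prop :=
  PrimrecPred fun p : List Bool × ℕ × List ℕ => R p.1 p.2.1 p.2.2

/-- Primitive recursive relations between an oracle string and a string. -/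
def PR2 (T : List Bool → List Bool → Prop) : Prop :=
  PrimrecPred fun p : List Bool × List Bool => T p.1 p.2

/-- If the `Σ⁰₁(Z)` relation given by `R` provides for every `n` a finite set above `n`, then one
of these finite sets is disjoint from `A`. -/
def Req (A Z : Set ℕ) (R : List Bool → ℕ → List ℕ → Prop) : Prop :=
  (∀ n, ∃ m D, R (pre Z m) n D ∧ Above n D) →
    ∃ n m D, R (pre Z m) n D ∧ Above n D ∧ ∀ y ∈ D, y ∉ A

/-- `A` is hyperimmune relative to `Z`. -/
def HI (A Z : Set ℕ) : Prop := ∀ R, PR3 R → Req A Z R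

/-- The `Π⁰₁(O)` class given by `T`. -/
def PiC (O : Set ℕ) (T : List Bool → List Bool → Prop) : Set (Set ℕ) :=
  {D | ∀ k, T (pre O k) (pre D k)}

/-- All strings of length `k`. -/
def allStr : ℕ → List (List Bool)
  | 0 => [[]]
  | k + 1 => (allStr k).flatMap fun s => [false :: s, true :: s]

/-- All finite lists of numbers with code `< k`. -/
def allL (k : ℕ) : List (List ℕ) := (List.range k).filterMap fun c => Encodable.decode c

/-- The string of length `m` of the join of the sets with initial segments `δ` and `σ`. -/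
def jn (δ σ : List Bool) (m : ℕ) : List Bool :=
  (List.range m).map fun i =>
    if i % 2 = 0 then (δ[i / 2]?).getD false else (σ[i / 2]?).getD false

/-- The code `(x + y)² + x` of a pair. -/
def prc (x y : ℕ) : ℕ := (x + y) * (x + y) + x

open Classical in
/-- The coloring coded by `Y`. -/
noncomputable def clr (Y : Set ℕ) (x y : ℕ) : Bool := decide (prc x y ∈ Y)

/-- `x0 < x1 < x2 < x3` is a copy of the pattern `1302`. -/
def Copy (c : ℕ → ℕ → Bool) (x0 x1 x2 x3 : ℕ) : Prop :=
  x0 < x1 ∧ x1 < x2 ∧ x2 < x3 ∧ c x0 x1 = false ∧ c x0 x2 = true ∧ c x0 x3 = false ∧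
    c x1 x2 = true ∧ c x1 x3 = true ∧ c x2 x3 = false

/-- `E` avoids the pattern `1302`. -/
def Av (c : ℕ → ℕ → Bool) (E : Set ℕ) : Prop :=
  ∀ x0 ∈ E, ∀ x1 ∈ E, ∀ x2 ∈ E, ∀ x3 ∈ E, ¬ Copy c x0 x1 x2 x3

/-- Unbounded sets of natural numbers. -/
def Unb (X : Set ℕ) : Prop := ∀ n, ∃ m ∈ X, n < m

/-- The set of elements of a list. -/
def els (F : List ℕ) : Set ℕ := {a | a ∈ F}

/-- Mathias conditions. -/
structure MC (c : ℕ → ℕ → Bool) (F : List ℕ) (X : Set ℕ) : Prop where
  unb : Unb X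
  lt : ∀ a ∈ F, ∀ x ∈ X, a < x
  const : ∀ a ∈ F, ∀ x ∈ X, ∀ y ∈ X, c a x = c a y
  av : ∀ x ∈ X, Av c (els F ∪ {x})

end Pool.Agent.Lib.MP_b4a791_lc
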