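import Pool.Agent.Lib.MP_b4a791_lc.C.Defs
import Pool.Agent.Lib.MP_b4a791_lc.D.Enum

/-! Primitive recursiveness of the basic list operations and their membership lemmas. -/

namespace Pool.Agent.Lib.MP_b4a791_lc

theorem primrec_allStr : Primrec allStr := by
  have h1 : Primrec₂ fun (_ : ℕ) (L : List (List Bool)) =>
      L.flatMap fun s => [false :: s, true :: s] := by
    refine Primrec.list_flatMap Primrec.snd ?_
    exact Primrec.list_cons.comp (Primrec.list_cons.comp (Primrec.const false) Primrec.snd)
      (Primrec.list_cons.comp (Primrec.list_cons.comp (Primrec.const true) Primrec.snd)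
        (Primrec.const []))
  refine (Primrec.nat_rec₁ [[]] h1).of_eq fun n => ?_
  induction n with
  | zero => rfl
  | succ n ih =>
    rw [allStr, ← ih]

theorem mem_allStr (k : ℕ) (s : List Bool) : s ∈ allStr k ↔ s.length = k := by
  induction k generalizing s with
  | zero =>
    rw [allStr, List.mem_singleton, List.length_eq_zero_iff]
  | succ k ih =>
    rw [allStr, List.mem_flatMap]
    constructor
    · rintro ⟨t, ht, h⟩
      have h1 := (ih t).1 ht
      rcases List.mem_cons.1 h with rfl | h
      · simp [h1]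
      · rw [List.mem_singleton] at h
        subst h
        simp [h1]
    · intro h
      cases s with
      | nil => simp at h
      | cons b t =>
        refine ⟨t, (ih t).2 (by simpa using h), ?_⟩
        cases b <;> simp

theorem primrec_allL : Primrec allL :=
  Primrec.listFilterMap Primrec.list_range (Primrec.decode.comp Primrec.snd)

theorem mem_allL (k : ℕ) (l : List ℕ) : l ∈ allL k ↔ Encodable.encode l < k := by
  rw [allL, List.mem_filterMap]
  constructor
  · rintro ⟨c, hc, h⟩
    rw [Denumerable.decode_eq_ofNat] at h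
    have h1 : Denumerable.ofNat (List ℕ) c = l := Option.some_injective _ h
    rw [← h1, Denumerable.encode_ofNat]
    exact List.mem_range.1 hc
  · intro h
    exact ⟨Encodable.encode l, List.mem_range.2 h, Encodable.encodek l⟩

theorem allL_mono {k k' : ℕ} (h : k ≤ k') {l : List ℕ} (hl : l ∈ allL k) : l ∈ allL k' := by
  rw [mem_allL] at hl ⊢
  exact hl.trans_le h

theorem primrec_jn : Primrec fun p : (List Bool × List Bool) × ℕ => jn p.1.1 p.1.2 p.2 := by
  refine Primrec.list_map (Primrec.list_range.comp Primrec.snd) ?_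
  have hi : Primrec fun q : ((List Bool × List Bool) × ℕ) × ℕ => q.2 / 2 :=
    Primrec.nat_div.comp Primrec.snd (Primrec.const 2)
  refine Primrec.ite (Primrec.eq.comp (Primrec.nat_mod.comp Primrec.snd (Primrec.const 2))
    (Primrec.const 0)) ?_ ?_
  · exact Primrec.option_getD.comp (Primrec.list_getElem?.comp
      (Primrec.fst.comp (Primrec.fst.comp Primrec.fst)) hi) (Primrec.const false)
  · exact Primrec.option_getD.comp (Primrec.list_getElem?.comp
      (Primrec.snd.comp (Primrec.fst.comp Primrec.fst)) hi) (Primrec.const false)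

/-- The string of the join. -/
theorem pre_join (D O : Set ℕ) (m k : ℕ) (h : m ≤ k) :
    pre (join D O) m = jn (pre D k) (pre O k) m := by
  classical
  unfold jn
  rw [pre]
  refine List.map_congr_left fun i hi => ?_
  have hi' : i / 2 < k := by
    have := List.mem_range.1 hi
    omega
  rw [getElem?_pre D k _ hi', getElem?_pre O k _ hi']
  simp only [Option.getD_some]
  split_ifs with h2
  · refine decide_eq_decide.2 ⟨?_, fun h3 => Or.inl ⟨i / 2, h3, by omega⟩⟩
    rintro (⟨n, hn, h3⟩ | ⟨n, hn, h3⟩)
    · have : i / 2 = n := by omega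
      rwa [this]
    · omega
  · refine decide_eq_decide.2 ⟨?_, fun h3 => Or.inr ⟨i / 2, h3, by omega⟩⟩
    rintro (⟨n, hn, h3⟩ | ⟨n, hn, h3⟩)
    · omega
    · have : i / 2 = n := by omega
      rwa [this]

theorem primrecPred_above : PrimrecPred fun p : ℕ × List ℕ => Above p.1 p.2 := by
  have h1 : PrimrecRel fun (a b : ℕ) => b ≤ a := Primrec.nat_le.comp Primrec.snd Primrec.fst
  exact (PrimrecRel.forall_mem_list h1).comp Primrec.snd Primrec.fst

/-- Enumeration of the primitive recursive relations. -/
theorem exists_enumR : ∃ E : ℕ → List Bool → ℕ → List ℕ → Prop,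
    (∀ e, PR3 (E e)) ∧ ∀ R, PR3 R → ∃ e, E e = R := by
  classical
  have h0 : {R : List Bool → ℕ → List ℕ → Prop | PR3 R}.Countable := by
    have h1 := countable_primrec (α := List Bool × ℕ × List ℕ) (σ := Bool)
    have h2 : ((fun (f : List Bool × ℕ × List ℕ → Bool) (σ : List Bool) (n : ℕ) (D : List ℕ) =>
      f (σ, n, D) = true) '' {f | Primrec f}).Countable := h1.image _
    refine h2.mono ?_
    rintro R ⟨hd, hR⟩
    refine ⟨_, hR, ?_⟩
    funext σ n D
    simp
  have hne : {R : List Bool → ℕ → List ℕ → Prop | PR3 R}.Nonempty :=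
    ⟨fun _ n _ => n = n, Primrec.eq.comp (Primrec.fst.comp Primrec.snd)
      (Primrec.fst.comp Primrec.snd)⟩
  obtain ⟨E, hE⟩ := h0.exists_eq_range hne
  refine ⟨E, fun e => ?_, fun R hR => ?_⟩
  · have h3 : E e ∈ {R : List Bool → ℕ → List ℕ → Prop | PR3 R} := by
      rw [hE]
      exact ⟨e, rfl⟩
    exact h3
  · have h3 : R ∈ {R : List Bool → ℕ → List ℕ → Prop | PR3 R} := hR
    rw [hE] at h3
    exact h3

end Pool.Agent.Lib.MP_b4a791_lc
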