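import Pool.Agent.Lib.MP_b4a791_lc.C.Konig
import Pool.Agent.Lib.MP_b4a791_lc.C.Prim

/-! One step of the basis theorem. -/

namespace Pool.Agent.Lib.MP_b4a791_lc

/-- The relation `R⁺` used in case (b). `bplus T R σ n D⁺`: every string `δ` of length `|σ|` either
leaves the tree `T` (at some `j ≤ |σ|`) or has `m ≤ |σ|` and `D` of code `< |σ|` with
`R (jn δ σ m) n D` and `D` above `n`; and `D⁺` is the concatenation of all `D` of code `< |σ|`, above
`n`, which occur in this way for some `δ` of length `|σ|`. -/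
def bplus (T : List Bool → List Bool → Prop) (R : List Bool → ℕ → List ℕ → Prop)
    (σ : List Bool) (n : ℕ) (Dp : List ℕ) : Prop :=
  (∀ δ ∈ allStr σ.length, (∃ j ∈ List.range (σ.length + 1), ¬ T (σ.take j) (δ.take j)) ∨
    ∃ m ∈ List.range (σ.length + 1), ∃ D ∈ allL σ.length, R (jn δ σ m) n D ∧ Above n D) ∧
  (∀ D ∈ allL σ.length, ∀ m ∈ List.range (σ.length + 1), ∀ δ ∈ allStr σ.length,
    R (jn δ σ m) n D → Above n D → ∀ y ∈ D, y ∈ Dp) ∧
  ∀ y ∈ Dp, n ≤ y

private theorem bStep_ex {α β : Type*} [Primcodable α] [Primcodable β] {f : α → List β}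
    {p : α → β → Prop} (hf : Primrec f) (hp : PrimrecPred fun q : α × β => p q.1 q.2) :
    PrimrecPred fun a => ∃ b ∈ f a, p a b := by
  have h1 : PrimrecRel fun (b : β) (a : α) => p a b :=
    hp.comp (Primrec.pair Primrec.snd Primrec.fst)
  exact (PrimrecRel.exists_mem_list h1).comp hf Primrec.id

private theorem bStep_all {α β : Type*} [Primcodable α] [Primcodable β] {f : α → List β}
    {p : α → β → Prop} (hf : Primrec f) (hp : PrimrecPred fun q : α × β => p q.1 q.2) :
    PrimrecPred fun a => ∀ b ∈ f a, p a b := by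
  have h1 : PrimrecRel fun (b : β) (a : α) => p a b :=
    hp.comp (Primrec.pair Primrec.snd Primrec.fst)
  exact (PrimrecRel.forall_mem_list h1).comp hf Primrec.id

private theorem bStep_imp {α : Type*} [Primcodable α] {p q : α → Prop} (hp : PrimrecPred p)
    (hq : PrimrecPred q) : PrimrecPred fun a => p a → q a := by
  refine (hp.not.or hq).of_eq fun a => ?_
  tauto

private theorem bStep_rng {α : Type*} [Primcodable α] {f : α → List Bool} (hf : Primrec f) :
    Primrec fun a => List.range ((f a).length + 1) :=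
  Primrec.list_range.comp (Primrec.succ.comp (Primrec.list_length.comp hf))

private theorem bStep_mem : PrimrecPred fun p : ℕ × List ℕ => p.1 ∈ p.2 := by
  have h1 := bStep_ex (α := ℕ × List ℕ) (β := ℕ) (f := fun p => p.2)
    (p := fun p b => b = p.1) Primrec.snd
    (Primrec.eq.comp Primrec.snd (Primrec.fst.comp Primrec.fst))
  refine h1.of_eq fun p => ?_
  simp

theorem pr3_bplus {T : List Bool → List Bool → Prop} {R : List Bool → ℕ → List ℕ → Prop}
    (hT : PR2 T) (hR : PR3 R) : PR3 (bplus T R) := by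
  have hσ : Primrec fun p : List Bool × ℕ × List ℕ => p.1 := Primrec.fst
  -- first part
  have h1 : PrimrecPred fun p : List Bool × ℕ × List ℕ =>
      ∀ δ ∈ allStr p.1.length, (∃ j ∈ List.range (p.1.length + 1), ¬ T (p.1.take j) (δ.take j)) ∨
        ∃ m ∈ List.range (p.1.length + 1), ∃ D ∈ allL p.1.length,
          R (jn δ p.1 m) p.2.1 D ∧ Above p.2.1 D := by
    refine bStep_all (f := fun p : List Bool × ℕ × List ℕ => allStr p.1.length)
      (primrec_allStr.comp (Primrec.list_length.comp hσ)) ?_
    refine PrimrecPred.or ?_ ?_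
    · refine bStep_ex (f := fun q : (List Bool × ℕ × List ℕ) × List Bool =>
        List.range (q.1.1.length + 1)) (bStep_rng (Primrec.fst.comp Primrec.fst)) ?_
      refine PrimrecPred.not ?_
      exact hT.comp (Primrec.pair
        (Primrec.list_take.comp Primrec.snd (Primrec.fst.comp (Primrec.fst.comp Primrec.fst)))
        (Primrec.list_take.comp Primrec.snd (Primrec.snd.comp Primrec.fst)))
    · refine bStep_ex (f := fun q : (List Bool × ℕ × List ℕ) × List Bool =>
        List.range (q.1.1.length + 1)) (bStep_rng (Primrec.fst.comp Primrec.fst)) ?_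
      refine bStep_ex (f := fun q : ((List Bool × ℕ × List ℕ) × List Bool) × ℕ =>
        allL q.1.1.1.length) (primrec_allL.comp (Primrec.list_length.comp
          (Primrec.fst.comp (Primrec.fst.comp Primrec.fst)))) ?_
      have hp : Primrec fun q : (((List Bool × ℕ × List ℕ) × List Bool) × ℕ) × List ℕ =>
          q.1.1.1 := Primrec.fst.comp (Primrec.fst.comp Primrec.fst)
      have hδ : Primrec fun q : (((List Bool × ℕ × List ℕ) × List Bool) × ℕ) × List ℕ =>
          q.1.1.2 := Primrec.snd.comp (Primrec.fst.comp Primrec.fst)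
      have hm : Primrec fun q : (((List Bool × ℕ × List ℕ) × List Bool) × ℕ) × List ℕ =>
          q.1.2 := Primrec.snd.comp Primrec.fst
      have hn : Primrec fun q : (((List Bool × ℕ × List ℕ) × List Bool) × ℕ) × List ℕ =>
          q.1.1.1.2.1 := Primrec.fst.comp (Primrec.snd.comp hp)
      refine PrimrecPred.and ?_ ?_
      · exact hR.comp (Primrec.pair (primrec_jn.comp (Primrec.pair (Primrec.pair hδ
          (Primrec.fst.comp hp)) hm)) (Primrec.pair hn Primrec.snd))
      · exact primrecPred_above.comp (Primrec.pair hn Primrec.snd)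
  -- second part
  have h2 : PrimrecPred fun p : List Bool × ℕ × List ℕ =>
      ∀ D ∈ allL p.1.length, ∀ m ∈ List.range (p.1.length + 1), ∀ δ ∈ allStr p.1.length,
        R (jn δ p.1 m) p.2.1 D → Above p.2.1 D → ∀ y ∈ D, y ∈ p.2.2 := by
    refine bStep_all (f := fun p : List Bool × ℕ × List ℕ => allL p.1.length)
      (primrec_allL.comp (Primrec.list_length.comp hσ)) ?_
    refine bStep_all (f := fun q : (List Bool × ℕ × List ℕ) × List ℕ =>
      List.range (q.1.1.length + 1)) (bStep_rng (Primrec.fst.comp Primrec.fst)) ?_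
    refine bStep_all (f := fun q : ((List Bool × ℕ × List ℕ) × List ℕ) × ℕ =>
      allStr q.1.1.1.length) (primrec_allStr.comp (Primrec.list_length.comp
        (Primrec.fst.comp (Primrec.fst.comp Primrec.fst)))) ?_
    have hp : Primrec fun q : (((List Bool × ℕ × List ℕ) × List ℕ) × ℕ) × List Bool =>
        q.1.1.1 := Primrec.fst.comp (Primrec.fst.comp Primrec.fst)
    have hD : Primrec fun q : (((List Bool × ℕ × List ℕ) × List ℕ) × ℕ) × List Bool =>
        q.1.1.2 := Primrec.snd.comp (Primrec.fst.comp Primrec.fst)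
    have hm : Primrec fun q : (((List Bool × ℕ × List ℕ) × List ℕ) × ℕ) × List Bool =>
        q.1.2 := Primrec.snd.comp Primrec.fst
    have hn : Primrec fun q : (((List Bool × ℕ × List ℕ) × List ℕ) × ℕ) × List Bool =>
        q.1.1.1.2.1 := Primrec.fst.comp (Primrec.snd.comp hp)
    refine bStep_imp ?_ (bStep_imp ?_ ?_)
    · exact hR.comp (Primrec.pair (primrec_jn.comp (Primrec.pair (Primrec.pair Primrec.snd
        (Primrec.fst.comp hp)) hm)) (Primrec.pair hn hD))
    · exact primrecPred_above.comp (Primrec.pair hn hD)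
    · refine bStep_all (f := fun q : (((List Bool × ℕ × List ℕ) × List ℕ) × ℕ) × List Bool =>
        q.1.1.2) hD ?_
      exact bStep_mem.comp (Primrec.pair Primrec.snd
        (Primrec.snd.comp (Primrec.snd.comp (hp.comp Primrec.fst))))
  have h3 : PrimrecPred fun p : List Bool × ℕ × List ℕ => ∀ y ∈ p.2.2, p.2.1 ≤ y := by
    refine bStep_all (f := fun p : List Bool × ℕ × List ℕ => p.2.2)
      (Primrec.snd.comp Primrec.snd) ?_
    exact Primrec.nat_le.comp (Primrec.fst.comp (Primrec.snd.comp Primrec.fst)) Primrec.snd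
  exact h1.and (h2.and h3)

/-- The tree used in case (a). -/
def btree (T : List Bool → List Bool → Prop) (R : List Bool → ℕ → List ℕ → Prop) (n : ℕ)
    (σ δ : List Bool) : Prop :=
  T σ δ ∧ ∀ m ∈ List.range (σ.length + 1), ∀ D ∈ allL σ.length, R (jn δ σ m) n D → ¬ Above n D

theorem pr2_btree {T : List Bool → List Bool → Prop} {R : List Bool → ℕ → List ℕ → Prop}
    (hT : PR2 T) (hR : PR3 R) (n : ℕ) : PR2 (btree T R n) := by
  have h2 : PrimrecPred fun p : List Bool × List Bool =>
      ∀ m ∈ List.range (p.1.length + 1), ∀ D ∈ allL p.1.length,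
        R (jn p.2 p.1 m) n D → ¬ Above n D := by
    refine bStep_all (f := fun p : List Bool × List Bool => List.range (p.1.length + 1))
      (bStep_rng Primrec.fst) ?_
    refine bStep_all (f := fun q : (List Bool × List Bool) × ℕ => allL q.1.1.length)
      (primrec_allL.comp (Primrec.list_length.comp (Primrec.fst.comp Primrec.fst))) ?_
    have hp : Primrec fun q : ((List Bool × List Bool) × ℕ) × List ℕ => q.1.1 :=
      Primrec.fst.comp Primrec.fst
    refine bStep_imp ?_ (PrimrecPred.not ?_)
    · exact hR.comp (Primrec.pair (primrec_jn.comp (Primrec.pair (Primrec.pair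
        (Primrec.snd.comp hp) (Primrec.fst.comp hp)) (Primrec.snd.comp Primrec.fst)))
        (Primrec.pair (Primrec.const n) Primrec.snd))
    · exact primrecPred_above.comp (Primrec.pair (Primrec.const n) Primrec.snd)
  exact PrimrecPred.and hT h2

/-- The class of `btree`: no finite set above `n` is ever provided. -/
theorem mem_piC_btree {O : Set ℕ} {T : List Bool → List Bool → Prop}
    {R : List Bool → ℕ → List ℕ → Prop} {n : ℕ} {D : Set ℕ} :
    D ∈ PiC O (btree T R n) ↔ D ∈ PiC O T ∧ ∀ m E, R (pre (join D O) m) n E → ¬ Above n E := by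
  constructor
  · intro h
    refine ⟨fun k => (h k).1, fun m E hR => ?_⟩
    have hk := (h (max m (Encodable.encode E + 1))).2
    rw [length_pre] at hk
    have hm : m ≤ max m (Encodable.encode E + 1) := le_max_left _ _
    have hE : Encodable.encode E < max m (Encodable.encode E + 1) :=
      lt_of_lt_of_le (Nat.lt_succ_self _) (le_max_right _ _)
    refine hk m (List.mem_range.2 (Nat.lt_succ_of_le hm)) E ((mem_allL _ _).2 hE) ?_
    rw [← pre_join D O m _ hm]
    exact hR
  · rintro ⟨h1, h2⟩ k
    refine ⟨h1 k, fun m hm E _ hR => ?_⟩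
    rw [length_pre] at hm
    have hm' : m ≤ k := Nat.lt_succ_iff.1 (List.mem_range.1 hm)
    refine h2 m E ?_
    rw [pre_join D O m k hm']
    exact hR

/-- Case (b): if no class of `btree` is nonempty then `bplus` provides for every `n` a finite set
(compactness `konig`). -/
theorem exists_bplus {O : Set ℕ} {T : List Bool → List Bool → Prop}
    {R : List Bool → ℕ → List ℕ → Prop}
    (h : ∀ n, ∀ D ∈ PiC O T, ∃ m E, R (pre (join D O) m) n E ∧ Above n E) (n : ℕ) :
    ∃ k Dp, bplus T R (pre O k) n Dp ∧ Above n Dp := by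
  classical
  let Q : List Bool → Prop := fun σ => ∃ k ≤ σ.length,
    (∃ j ≤ k, ¬ T (pre O j) (σ.take j)) ∨
      ∃ m ≤ k, ∃ E : List ℕ, Encodable.encode E < k ∧ R (jn (σ.take k) (pre O k) m) n E ∧
        Above n E
  have hQ : ∀ σ τ, σ <+: τ → Q σ → Q τ := by
    rintro σ τ hστ ⟨k, hk, h1⟩
    have htake : ∀ j ≤ k, τ.take j = σ.take j := by
      intro j hj
      obtain ⟨ρ, rfl⟩ := hστ
      rw [List.take_append_of_le_length (hj.trans hk)]
    refine ⟨k, hk.trans hστ.length_le, ?_⟩
    rcases h1 with ⟨j, hj, h1⟩ | ⟨m, hm, E, hE, h1, h2⟩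
    · exact Or.inl ⟨j, hj, by rwa [htake j hj]⟩
    · exact Or.inr ⟨m, hm, E, hE, by rwa [htake k le_rfl], h2⟩
  have hall : ∀ D : Set ℕ, ∃ k, Q (pre D k) := by
    intro D
    by_cases hD : D ∈ PiC O T
    · obtain ⟨m, E, h1, h2⟩ := h n D hD
      have hm : m ≤ max m (Encodable.encode E + 1) := le_max_left _ _
      refine ⟨max m (Encodable.encode E + 1), max m (Encodable.encode E + 1), ?_, ?_⟩
      · rw [length_pre]
      · refine Or.inr ⟨m, hm, E, lt_of_lt_of_le (Nat.lt_succ_self _) (le_max_right _ _), ?_, h2⟩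
        rw [pre_take D le_rfl, ← pre_join D O m _ hm]
        exact h1
    · have h3 : ∃ j, ¬ T (pre O j) (pre D j) := by
        by_contra hcon
        push Not at hcon
        exact hD hcon
      obtain ⟨j, hj⟩ := h3
      refine ⟨j, j, by rw [length_pre], Or.inl ⟨j, le_rfl, ?_⟩⟩
      rw [pre_take D le_rfl]
      exact hj
  obtain ⟨K, hK⟩ := konig Q hQ hall
  let P : List ℕ → Prop := fun D => ∃ m ∈ List.range (K + 1), ∃ δ ∈ allStr K,
    R (jn δ (pre O K) m) n D ∧ Above n D
  refine ⟨K, ((allL K).filter fun D => decide (P D)).flatten, ⟨?_, ?_, ?_⟩, ?_⟩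
  · rw [length_pre]
    intro δ hδ
    have hlen : δ.length = K := (mem_allStr K δ).1 hδ
    let D : Set ℕ := {i | δ[i]? = some true}
    have hpre : pre D K = δ := by
      unfold pre
      refine List.ext_getElem (by simp [hlen]) fun i h1 h2 => ?_
      have h3 : δ[i]? = some δ[i] := List.getElem?_eq_getElem h2
      simp only [List.getElem_map, List.getElem_range]
      by_cases hb : δ[i] = true
      · have h4 : i ∈ D := by
          show δ[i]? = some true
          rw [h3, hb]
        rw [hb, decide_eq_true h4]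
      · have h4 : i ∉ D := by
          intro h5
          have h6 : δ[i]? = some true := h5
          rw [h3] at h6
          exact hb (Option.some_injective _ h6)
        have h5 : δ[i] = false := by simpa using hb
        rw [h5, decide_eq_false h4]
    obtain ⟨k, hk, h1⟩ := hK D
    rw [length_pre] at hk
    rcases h1 with ⟨j, hj, h1⟩ | ⟨m, hm, E, hE, h1, h2⟩
    · left
      refine ⟨j, List.mem_range.2 (by omega), ?_⟩
      rw [pre_take O (hj.trans hk)]
      rwa [hpre] at h1
    · right
      refine ⟨m, List.mem_range.2 (by omega), E, (mem_allL _ _).2 (by omega), ?_, h2⟩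
      rw [pre_take D hk, ← pre_join D O m k hm, pre_join D O m K (hm.trans hk), hpre] at h1
      exact h1
  · rw [length_pre]
    intro D hD m hm δ hδ hR hab y hy
    rw [List.mem_flatten]
    refine ⟨D, List.mem_filter.2 ⟨hD, ?_⟩, hy⟩
    exact decide_eq_true ⟨m, hm, δ, hδ, hR, hab⟩
  · intro y hy
    obtain ⟨D, hD, hyD⟩ := List.mem_flatten.1 hy
    obtain ⟨_, h1⟩ := List.mem_filter.1 hD
    obtain ⟨_, _, _, _, _, h2⟩ := of_decide_eq_true h1
    exact h2 y hyD
  · intro y hy
    obtain ⟨D, hD, hyD⟩ := List.mem_flatten.1 hy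
    obtain ⟨_, h1⟩ := List.mem_filter.1 hD
    obtain ⟨_, _, _, _, _, h2⟩ := of_decide_eq_true h1
    exact h2 y hyD

theorem basis_step {O A : Set ℕ} {T : List Bool → List Bool → Prop}
    {R : List Bool → ℕ → List ℕ → Prop} (hT : PR2 T) (hne : (PiC O T).Nonempty) (hR : PR3 R)
    (hA : HI A O) :
    ∃ T', PR2 T' ∧ (PiC O T').Nonempty ∧ PiC O T' ⊆ PiC O T ∧
      ∀ D ∈ PiC O T', Req A (join D O) R := by
  by_cases h : ∃ n, (PiC O (btree T R n)).Nonempty
  · obtain ⟨n, hn⟩ := h
    refine ⟨btree T R n, pr2_btree hT hR n, hn, fun D hD => (mem_piC_btree.1 hD).1,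
      fun D hD hall => ?_⟩
    obtain ⟨m, E, h1, h2⟩ := hall n
    exact absurd h2 ((mem_piC_btree.1 hD).2 m E h1)
  · have h' : ∀ n, ∀ D ∈ PiC O T, ∃ m E, R (pre (join D O) m) n E ∧ Above n E := by
      intro n D hD
      by_contra hcon
      push Not at hcon
      exact h ⟨n, D, mem_piC_btree.2 ⟨hD, fun m E h1 h2 => hcon m E h1 h2⟩⟩
    obtain ⟨n, k, Dp, h1, _, h3⟩ := hA _ (pr3_bplus hT hR) (exists_bplus h')
    refine ⟨T, hT, hne, le_rfl, fun D hD _ => ?_⟩
    have hlen : (pre O k).length = k := length_pre O k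
    obtain ⟨hb1, hb2, _⟩ := h1
    rw [hlen] at hb1 hb2
    rcases hb1 (pre D k) ((mem_allStr k _).2 (length_pre D k)) with ⟨j, hj, hT'⟩ | hex
    · exfalso
      have hj' : j ≤ k := by simpa [Nat.lt_succ_iff] using hj
      apply hT'
      rw [pre_take O hj', pre_take D hj']
      exact hD j
    · obtain ⟨m, hm, E, hE, hR', hab⟩ := hex
      have hm' : m ≤ k := by simpa [Nat.lt_succ_iff] using hm
      refine ⟨n, m, E, ?_, hab, fun y hy => h3 y ?_⟩
      · rw [pre_join D O m k hm']
        exact hR'
      · exact hb2 E hE m hm (pre D k) ((mem_allStr k _).2 (length_pre D k)) hR' hab y hy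

end Pool.Agent.Lib.MP_b4a791_lc
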