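import Pool.Agent.Lib.MP_b4a791_lc.C.BStep

/-! The basis theorem: every nonempty `Π⁰₁(O)` class has a member preserving the hyperimmunity of
both sets. Build a nested sequence of classes with `basis_step` for all pairs (relation of
`exists_enumR`, `i : Bool`), take a common element with `piC_nested`. -/

namespace Pool.Agent.Lib.MP_b4a791_lc

theorem basis {O : Set ℕ} {A : Bool → Set ℕ} {T : List Bool → List Bool → Prop} (hT : PR2 T)
    (hne : (PiC O T).Nonempty) (hA : ∀ i, HI (A i) O) :
    ∃ D ∈ PiC O T, ∀ i, HI (A i) (join D O) := by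
  obtain ⟨E, hE, hE'⟩ := exists_enumR
  have hstep : ∀ (n : ℕ) (s : {T' : List Bool → List Bool → Prop // PR2 T' ∧ (PiC O T').Nonempty}),
      ∃ s' : {T' : List Bool → List Bool → Prop // PR2 T' ∧ (PiC O T').Nonempty},
        PiC O s'.1 ⊆ PiC O s.1 ∧
          ∀ D ∈ PiC O s'.1, Req (A (decide (n % 2 = 1))) (join D O) (E (n / 2)) := by
    intro n s
    obtain ⟨T', h1, h2, h3, h4⟩ := basis_step s.2.1 s.2.2 (hE (n / 2)) (hA (decide (n % 2 = 1)))
    exact ⟨⟨T', h1, h2⟩, h3, h4⟩
  choose nxt hn1 hn2 using hstep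
  let S : ℕ → {T' : List Bool → List Bool → Prop // PR2 T' ∧ (PiC O T').Nonempty} :=
    fun n => Nat.rec ⟨T, hT, hne⟩ (fun n s => nxt n s) n
  have hS0 : S 0 = ⟨T, hT, hne⟩ := rfl
  have hSs : ∀ n, S (n + 1) = nxt n (S n) := fun n => rfl
  obtain ⟨D, hD⟩ := piC_nested O (fun n => (S n).1) (fun j => by
    simp only [hSs]
    exact hn1 j (S j)) (fun j => (S j).2.2)
  refine ⟨D, by simpa [hS0] using hD 0, fun i R hR => ?_⟩
  obtain ⟨e, rfl⟩ := hE' R hR
  have h := hD ((2 * e + if i = true then 1 else 0) + 1)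
  simp only [hSs] at h
  have h' := hn2 (2 * e + if i = true then 1 else 0) _ D h
  cases i with
  | true =>
    have e1 : (2 * e + if true = true then 1 else 0) % 2 = 1 := by
      rw [if_pos rfl]; omega
    have e2 : (2 * e + if true = true then 1 else 0) / 2 = e := by
      rw [if_pos rfl]; omega
    rw [e1, e2] at h'
    simpa using h'
  | false =>
    have e1 : (2 * e + if false = true then 1 else 0) % 2 = 0 := by simp
    have e2 : (2 * e + if false = true then 1 else 0) / 2 = e := by simp
    rw [e1, e2] at h'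
    simpa using h'

end Pool.Agent.Lib.MP_b4a791_lc
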