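import Pool.Agent.Lib.MP_b4a791_lc.C.Defs

/-! Extension of Mathias conditions (pure combinatorics of the pattern `1302`). -/

namespace Pool.Agent.Lib.MP_b4a791_lc

private theorem Ext_mono {c : ℕ → ℕ → Bool} {A A' : Set ℕ} (h : Av c A') (hA : A ⊆ A') : Av c A :=
  fun x0 h0 x1 h1 x2 h2 x3 h3 => h x0 (hA h0) x1 (hA h1) x2 (hA h2) x3 (hA h3)

/-- The key combinatorial lemma. For a copy `x0<x1<x2<x3` in `F ∪ E ∪ {x}`: elements of `F` come
first. If at most one of the four points is outside `F` use `h.av`. If exactly `x0` (resp. `x0, x1`)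
is in `F` then `c x0 x1 = c x0 x2` (resp. `c x0 x2 = c x0 x3`) by `h.const`, contradiction. If none
is in `F`: all in `E` contradicts `hE`; if `x3 = x` the last column is constant, contradiction. -/
theorem MC.extend {c : ℕ → ℕ → Bool} {F E : List ℕ} {X X' : Set ℕ} (h : MC c F X)
    (hEX : ∀ e ∈ E, e ∈ X) (hE : Av c (els E)) (hX' : X' ⊆ X) (hu : Unb X')
    (hlt : ∀ e ∈ E, ∀ x ∈ X', e < x) (b : Bool) (hb : ∀ e ∈ E, ∀ x ∈ X', c e x = b) :
    MC c (F ++ E) X' := by
  refine ⟨hu, ?_, ?_, ?_⟩
  · intro a ha x hx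
    rcases List.mem_append.1 ha with h1 | h1
    · exact h.lt a h1 x (hX' hx)
    · exact hlt a h1 x hx
  · intro a ha x hx y hy
    rcases List.mem_append.1 ha with h1 | h1
    · exact h.const a h1 x (hX' hx) y (hX' hy)
    · rw [hb a h1 x hx, hb a h1 y hy]
  · intro x hx x0 h0 x1 h1 x2 h2 x3 h3 hC
    obtain ⟨l01, l12, l23, c01, c02, c03, c12, c13, c23⟩ := hC
    -- every point is in `F`, or in `X` and then in `E` or equal to `x`
    have key : ∀ z, z ∈ els (F ++ E) ∪ {x} → z ∈ F ∨ (z ∈ X ∧ (z ∈ E ∨ z = x)) := by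
      intro z hz
      rcases hz with hz | hz
      · rcases List.mem_append.1 hz with h4 | h4
        · exact Or.inl h4
        · exact Or.inr ⟨hEX z h4, Or.inl h4⟩
      · have hz' : z = x := hz
        exact Or.inr ⟨by rw [hz']; exact hX' hx, Or.inr hz'⟩
    have ord : ∀ z w, z < w → w ∈ F → (z ∈ F ∨ (z ∈ X ∧ (z ∈ E ∨ z = x))) → z ∈ F := by
      intro z w hzw hw hz
      rcases hz with hz | ⟨hz, -⟩
      · exact hz
      · exact absurd (h.lt w hw z hz) (by omega)
    rcases key x3 h3 with k3 | ⟨k3, m3⟩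
    · have k2 := ord x2 x3 l23 k3 (key x2 h2)
      have k1 := ord x1 x2 l12 k2 (key x1 h1)
      have k0 := ord x0 x1 l01 k1 (key x0 h0)
      obtain ⟨y, hy, -⟩ := h.unb 0
      exact h.av y hy x0 (Or.inl k0) x1 (Or.inl k1) x2 (Or.inl k2) x3 (Or.inl k3)
        ⟨l01, l12, l23, c01, c02, c03, c12, c13, c23⟩
    · rcases key x2 h2 with k2 | ⟨k2, m2⟩
      · have k1 := ord x1 x2 l12 k2 (key x1 h1)
        have k0 := ord x0 x1 l01 k1 (key x0 h0)
        exact h.av x3 k3 x0 (Or.inl k0) x1 (Or.inl k1) x2 (Or.inl k2) x3 (Or.inr rfl)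
          ⟨l01, l12, l23, c01, c02, c03, c12, c13, c23⟩
      · rcases key x1 h1 with k1 | ⟨k1, m1⟩
        · have k0 := ord x0 x1 l01 k1 (key x0 h0)
          have e := h.const x0 k0 x2 k2 x3 k3
          rw [c02, c03] at e
          exact absurd e (by decide)
        · rcases key x0 h0 with k0 | ⟨k0, m0⟩
          · have e := h.const x0 k0 x1 k1 x2 k2
            rw [c01, c02] at e
            exact absurd e (by decide)
          · -- all in `X`
            have ne : ∀ z w, z < w → (w ∈ E ∨ w = x) → (z ∈ E ∨ z = x) → z ∈ E := by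
              intro z w hzw hw hz
              rcases hz with hz | hz
              · exact hz
              · rcases hw with hw | hw
                · have := hlt w hw x hx
                  omega
                · omega
            have n2 := ne x2 x3 l23 m3 m2
            have n1 := ne x1 x2 l12 m2 m1
            have n0 := ne x0 x1 l01 m1 m0
            rcases m3 with n3 | n3
            · exact hE x0 n0 x1 n1 x2 n2 x3 n3 ⟨l01, l12, l23, c01, c02, c03, c12, c13, c23⟩
            · rw [n3, hb x0 n0 x hx] at c03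
              rw [n3, hb x1 n1 x hx] at c13
              rw [c03] at c13
              exact absurd c13 (by decide)

/-- Thinning: a finite set of rows becomes constant. -/
theorem exists_thin (c : ℕ → ℕ → Bool) {X : Set ℕ} (hu : Unb X) (k : ℕ) (G : List ℕ) :
    ∃ v : ℕ → Bool, Unb {x | x ∈ X ∧ k < x ∧ ∀ g ∈ G, c g x = v g} := by
  induction G with
  | nil =>
    refine ⟨fun _ => false, fun n => ?_⟩
    obtain ⟨m, hm, hnm⟩ := hu (max n k)
    exact ⟨m, ⟨hm, lt_of_le_of_lt (le_max_right _ _) hnm, by simp⟩,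
      lt_of_le_of_lt (le_max_left _ _) hnm⟩
  | cons g G ih =>
    obtain ⟨v, hv⟩ := ih
    by_cases hg : g ∈ G
    · refine ⟨v, fun n => ?_⟩
      obtain ⟨m, ⟨h1, h2, h3⟩, hnm⟩ := hv n
      refine ⟨m, ⟨h1, h2, fun g' hg' => ?_⟩, hnm⟩
      rcases List.mem_cons.1 hg' with rfl | h4
      · exact h3 _ hg
      · exact h3 _ h4
    · by_cases ht : Unb {x | (x ∈ X ∧ k < x ∧ ∀ g ∈ G, c g x = v g) ∧ c g x = true}
      · refine ⟨Function.update v g true, fun n => ?_⟩
        obtain ⟨m, ⟨⟨h1, h2, h3⟩, h5⟩, hnm⟩ := ht n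
        refine ⟨m, ⟨h1, h2, fun g' hg' => ?_⟩, hnm⟩
        rcases List.mem_cons.1 hg' with rfl | h4
        · rw [Function.update_self]
          exact h5
        · have hne : g' ≠ g := by
            rintro rfl
            exact hg h4
          rw [Function.update_of_ne hne]
          exact h3 _ h4
      · unfold Unb at ht
        push Not at ht
        obtain ⟨N, hN⟩ := ht
        refine ⟨Function.update v g false, fun n => ?_⟩
        obtain ⟨m, ⟨h1, h2, h3⟩, hnm⟩ := hv (max n N)
        have h5 : c g m = false := by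
          by_contra hc
          have hc' : c g m = true := by
            cases hcg : c g m
            · exact absurd hcg hc
            · rfl
          have := hN m ⟨⟨h1, h2, h3⟩, hc'⟩
          have := lt_of_le_of_lt (le_max_right n N) hnm
          omega
        refine ⟨m, ⟨h1, h2, fun g' hg' => ?_⟩, lt_of_le_of_lt (le_max_left _ _) hnm⟩
        rcases List.mem_cons.1 hg' with rfl | h4
        · rw [Function.update_self]
          exact h5
        · have hne : g' ≠ g := by
            rintro rfl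
            exact hg h4
          rw [Function.update_of_ne hne]
          exact h3 _ h4

/-- The empty condition. -/
theorem MC.start (c : ℕ → ℕ → Bool) : MC c [] Set.univ := by
  refine ⟨fun n => ⟨n + 1, Set.mem_univ _, Nat.lt_succ_self n⟩, ?_, ?_, ?_⟩
  · intro a ha
    exact absurd ha (by simp)
  · intro a ha
    exact absurd ha (by simp)
  · intro x _ x0 h0 x1 h1 x2 _ x3 _ hC
    have key : ∀ z, z ∈ els [] ∪ ({x} : Set ℕ) → z = x := by
      intro z hz
      rcases hz with hz | hz
      · exact absurd hz (by simp [els])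
      · exact hz
    have e0 := key x0 h0
    have e1 := key x1 h1
    have := hC.1
    omega

/-- `F` itself avoids the pattern. -/
theorem MC.avF {c : ℕ → ℕ → Bool} {F : List ℕ} {X : Set ℕ} (h : MC c F X) : Av c (els F) := by
  obtain ⟨y, hy, -⟩ := h.unb 0
  exact Ext_mono (h.av y hy) Set.subset_union_left

/-- An increasing union: a set all of whose finite subsets are contained in sets avoiding the
pattern avoids the pattern. -/
theorem av_iUnion {c : ℕ → ℕ → Bool} (F : ℕ → List ℕ) (hF : ∀ s, ∀ a ∈ F s, a ∈ F (s + 1))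
    (h : ∀ s, Av c (els (F s))) : Av c (⋃ s, els (F s)) := by
  have mono : ∀ s t, s ≤ t → ∀ a ∈ F s, a ∈ F t := by
    intro s t hst
    induction hst with
    | refl => exact fun a ha => ha
    | step _ ih => exact fun a ha => hF _ a (ih a ha)
  intro x0 h0 x1 h1 x2 h2 x3 h3
  obtain ⟨s0, k0⟩ := Set.mem_iUnion.1 h0
  obtain ⟨s1, k1⟩ := Set.mem_iUnion.1 h1
  obtain ⟨s2, k2⟩ := Set.mem_iUnion.1 h2
  obtain ⟨s3, k3⟩ := Set.mem_iUnion.1 h3
  set M := max (max s0 s1) (max s2 s3) with hM
  exact h M x0 (mono s0 M (by omega) x0 k0) x1 (mono s1 M (by omega) x1 k1)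
    x2 (mono s2 M (by omega) x2 k2) x3 (mono s3 M (by omega) x3 k3)

end Pool.Agent.Lib.MP_b4a791_lc
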