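import Pool.Agent.Lib.MP_b4a791_lc.C.Prim
import Pool.Agent.Lib.MP_b4a791_lc.D.NF
import Pool.Agent.Lib.MP_b4a791_lc.D.CV
import Pool.Agent.Lib.MP_b4a791_lc.D.Join

/-! Basic facts on hyperimmunity. -/

namespace Pool.Agent.Lib.MP_b4a791_lc

open Classical in
private theorem HIL_val {X Y : Set ℕ} {R : List Bool → ℕ → Option Bool} (hm : MonoF R)
    (hd : ∀ x, ∃ n, R (pre X n) x = some (decide (x ∈ Y))) {n x : ℕ} {b : Bool}
    (hb : R (pre X n) x = some b) : b = decide (x ∈ Y) := by
  obtain ⟨n', hn'⟩ := hd x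
  have h1 := hm _ _ _ _ (pre_prefix X (le_max_left n n')) hb
  have h2 := hm _ _ _ _ (pre_prefix X (le_max_right n n')) hn'
  rw [h1] at h2
  exact Option.some_injective _ h2

private def HIL_str (Q : List Bool → ℕ → Option Bool) (τ : List Bool) (m : ℕ) : List Bool :=
  (List.range m).map fun i => (Q τ i).getD false

private def HIL_R (Q : List Bool → ℕ → Option Bool) (R : List Bool → ℕ → List ℕ → Prop)
    (τ : List Bool) (n : ℕ) (D : List ℕ) : Prop :=
  ∃ m < τ.length + 1, (∀ i < m, Q τ i ≠ none) ∧ R (HIL_str Q τ m) n D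

private theorem HIL_exists_lt {β : Type*} [Primcodable β] {R : ℕ → β → Prop}
    (hf : PrimrecRel R) : PrimrecRel fun (n : ℕ) (y : β) => ∃ x < n, R x y :=
  (hf.exists_mem_list.comp (Primrec.list_range.comp Primrec.fst) Primrec.snd).of_eq (by simp)

private theorem HIL_forall_lt {β : Type*} [Primcodable β] {R : ℕ → β → Prop}
    (hf : PrimrecRel R) : PrimrecRel fun (n : ℕ) (y : β) => ∀ x < n, R x y :=
  (hf.forall_mem_list.comp (Primrec.list_range.comp Primrec.fst) Primrec.snd).of_eq (by simp)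

private theorem HIL_prim {Q : List Bool → ℕ → Option Bool} (hQ : Primrec₂ Q)
    {R : List Bool → ℕ → List ℕ → Prop} (hR : PR3 R) : PR3 (HIL_R Q R) := by
  have h1 : PrimrecRel fun (i : ℕ) (p : List Bool × ℕ × List ℕ) => Q p.1 i ≠ none := by
    have : PrimrecRel fun (i : ℕ) (p : List Bool × ℕ × List ℕ) => Q p.1 i = none := by
      have h := Primrec.eq.comp (hQ.comp (Primrec.fst.comp (Primrec.snd (α := ℕ)
        (β := List Bool × ℕ × List ℕ))) Primrec.fst) (Primrec.const none)
      exact h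
    exact PrimrecRel.not this
  have h2 := HIL_forall_lt h1
  have h3 : Primrec fun q : ℕ × (List Bool × ℕ × List ℕ) => HIL_str Q q.2.1 q.1 := by
    unfold HIL_str
    refine Primrec.list_map (Primrec.list_range.comp Primrec.fst) ?_
    refine Primrec.option_getD.comp (hQ.comp ?_ Primrec.snd) (Primrec.const false)
    exact Primrec.fst.comp (Primrec.snd.comp Primrec.fst)
  have h4 : PrimrecRel fun (m : ℕ) (p : List Bool × ℕ × List ℕ) =>
      (∀ i < m, Q p.1 i ≠ none) ∧ R (HIL_str Q p.1 m) p.2.1 p.2.2 := by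
    have h5 : PrimrecPred fun q : ℕ × (List Bool × ℕ × List ℕ) =>
        R (HIL_str Q q.2.1 q.1) q.2.2.1 q.2.2.2 :=
      PrimrecPred.comp hR (h3.pair (Primrec.snd.comp Primrec.snd))
    exact PrimrecPred.and h2 h5
  have h6 := HIL_exists_lt h4
  have h7 : PrimrecPred fun p : List Bool × ℕ × List ℕ => ∃ m < p.1.length + 1,
      (∀ i < m, Q p.1 i ≠ none) ∧ R (HIL_str Q p.1 m) p.2.1 p.2.2 :=
    h6.comp (Primrec.succ.comp (Primrec.list_length.comp Primrec.fst)) Primrec.id
  exact h7

/-- Invariance: take the normal form `Q` of `Z' ≤_T Z` (theorem `nf`); `R' τ n D` says that for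
some `m' ≤ τ.length` there is a string `σ` of length `m'` (compute it bit by bit, or quantify over
`allStr m'`) with `Q τ i = some σ[i]` for `i < m'` and `R σ n D`. -/
theorem HI.mono {A Z Z' : Set ℕ} (h : HI A Z) (hZ : TRed Z' Z) : HI A Z' := by
  classical
  obtain ⟨Q, hQ, hQm, hQd⟩ := nf hZ
  have hstr : ∀ n m, (∀ i < m, Q (pre Z n) i ≠ none) → HIL_str Q (pre Z n) m = pre Z' m := by
    intro n m hm
    unfold HIL_str pre
    apply List.map_congr_left
    intro i hi
    rw [List.mem_range] at hi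
    obtain ⟨b, hb⟩ := Option.ne_none_iff_exists'.1 (hm i hi)
    have hb' := HIL_val hQm hQd hb
    have : Q (List.map (fun i => decide (i ∈ Z)) (List.range n)) i = some b := hb
    rw [this, Option.getD_some, hb']
  intro R hR hyp
  have hkey : ∀ m', ∃ m, m' ≤ m ∧ ∀ i < m', Q (pre Z m) i ≠ none := by
    intro m'
    induction m' with
    | zero => exact ⟨0, le_rfl, fun i hi => absurd hi (Nat.not_lt_zero i)⟩
    | succ k ih =>
      obtain ⟨m, hm, hmk⟩ := ih
      obtain ⟨n, hn⟩ := hQd k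
      refine ⟨max (m + 1) n, by omega, ?_⟩
      intro i hi
      rcases Nat.lt_succ_iff_lt_or_eq.1 hi with hi | rfl
      · obtain ⟨b, hb⟩ := Option.ne_none_iff_exists'.1 (hmk i hi)
        rw [hQm _ _ _ _ (pre_prefix Z (show m ≤ max (m + 1) n by omega)) hb]
        simp
      · rw [hQm _ _ _ _ (pre_prefix Z (show n ≤ max (m + 1) n by omega)) hn]
        simp
  obtain ⟨n, m, D, ⟨k, hk, hk1, hk2⟩, hD, hA⟩ := h (HIL_R Q R) (HIL_prim hQ hR) (by
    intro n
    obtain ⟨m', D, hRD, hD⟩ := hyp n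
    obtain ⟨m, hm, hmi⟩ := hkey m'
    refine ⟨m, D, ⟨m', by rw [length_pre]; omega, hmi, ?_⟩, hD⟩
    rw [hstr m m' hmi]
    exact hRD)
  rw [hstr m k hk1] at hk2
  exact ⟨n, k, D, hk2, hD, hA⟩

/-- A hyperimmune set has no infinite subset recursive in `Z`: take for `R σ n D` :
`D = [y]`, `n ≤ y`, `Q σ y = some true` with the normal form `Q` of `H ≤_T Z`. -/
theorem HI.no_subset {A Z H : Set ℕ} (h : HI A Z) (hH : TRed H Z) (hu : Unb H) (hs : H ⊆ A) :
    False := by
  classical
  obtain ⟨Q, hQ, hQm, hQd⟩ := nf hH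
  have hprim : PR3 fun σ (_ : ℕ) D => D = [D.headI] ∧ Q σ D.headI = some true := by
    have h1 : Primrec fun p : List Bool × ℕ × List ℕ => p.2.2 := Primrec.snd.comp Primrec.snd
    have h2 : Primrec fun p : List Bool × ℕ × List ℕ => p.2.2.headI := Primrec.list_headI.comp h1
    have h3 : PrimrecPred fun p : List Bool × ℕ × List ℕ => p.2.2 = [p.2.2.headI] :=
      Primrec.eq.comp h1 (Primrec.list_cons.comp h2 (Primrec.const []))
    have h4 : PrimrecPred fun p : List Bool × ℕ × List ℕ => Q p.1 p.2.2.headI = some true :=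
      Primrec.eq.comp (hQ.comp Primrec.fst h2) (Primrec.const (some true))
    exact PrimrecPred.and h3 h4
  obtain ⟨n, m, D, ⟨hD1, hD2⟩, hD, hA⟩ := h _ hprim (by
    intro n
    obtain ⟨y, hy, hny⟩ := hu n
    obtain ⟨m, hm⟩ := hQd y
    refine ⟨m, [y], ⟨rfl, ?_⟩, ?_⟩
    · show Q (pre Z m) y = some true
      rw [hm]
      simp [hy]
    · intro z hz
      rw [List.mem_singleton] at hz
      omega)
  have h1 := HIL_val hQm hQd hD2
  have h2 : D.headI ∈ H := by
    have := h1.symm
    exact of_decide_eq_true this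
  exact hA D.headI (by rw [hD1]; simp) (hs h2)

end Pool.Agent.Lib.MP_b4a791_lc
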