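import Pool.Agent.Lib.MP_b4a791_lc.C.HIL

/-!
The initial coloring: a stable coloring both of whose limit sets are hyperimmune relative to it.

Conditions: `(σ, s, l)`, a string `σ` (the bits `< σ.length` of `Y` are decided), a number `s`, and
limit colors `l x` for `x < s`. `(σ', s', l')` extends `(σ, s, l)` if `σ <+: σ'`, `s ≤ s'`, `l' = l`
below `s`, and for all `x < s`, `x < y` with `σ.length ≤ prc x y < σ'.length` the bit of `σ'` at
`prc x y` is `l x` (`prc` is injective: `(x+y)² ≤ prc x y < (x+y+1)²`).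
Requirement for `R` and `i`, with `n = s`: if some extension `(σ', s, l)` has `m ≤ σ'.length` and `D`
above `s` with `R (σ'.take m) s D`, take it, with `s'` bigger than all elements of `D` and
`l' x = !i` for `x ≥ s`: then `D` is disjoint from `{x | l x = i}`. Otherwise the hypothesis of `Req`
fails for `n = s`, whatever the later choices. Enumerate all requirements with `exists_enumR`;
interleave with making `σ` and `s` longer.
-/

namespace Pool.Agent.Lib.MP_b4a791_lc

/-- conditions -/
private structure InitC where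
  σ : List Bool
  s : ℕ
  l : ℕ → Bool

private def InitC.Ext (c c' : InitC) : Prop :=
  c.σ <+: c'.σ ∧ c.s ≤ c'.s ∧ (∀ x < c.s, c'.l x = c.l x) ∧
    ∀ x y, x < c.s → c.σ.length ≤ prc x y → prc x y < c'.σ.length →
      c'.σ[prc x y]? = some (c.l x)

private theorem InitC.Ext.refl (c : InitC) : c.Ext c :=
  ⟨List.prefix_rfl, le_rfl, fun _ _ => rfl, fun _ _ _ h h' => absurd h' (not_lt.2 h)⟩

private theorem Init_getElem {σ τ : List Bool} (h : σ <+: τ) {n : ℕ} (hn : n < σ.length) :
    τ[n]? = σ[n]? := by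
  obtain ⟨r, rfl⟩ := h
  exact List.getElem?_append_left hn

private theorem InitC.Ext.trans {c c' c'' : InitC} (h : c.Ext c') (h' : c'.Ext c'') :
    c.Ext c'' := by
  obtain ⟨h1, h2, h3, h4⟩ := h
  obtain ⟨k1, k2, k3, k4⟩ := h'
  refine ⟨h1.trans k1, h2.trans k2, fun x hx => ?_, fun x y hx hl hl' => ?_⟩
  · rw [k3 x (hx.trans_le h2), h3 x hx]
  · rcases lt_or_ge (prc x y) c'.σ.length with h | h
    · rw [Init_getElem k1 h]
      exact h4 x y hx hl h
    · rw [k4 x y (hx.trans_le h2) h hl', h3 x hx]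

private theorem Init_prc_inj {x y x' y' : ℕ} (h : prc x y = prc x' y') : x = x' := by
  unfold prc at h
  have h1 : x ≤ x + y := Nat.le_add_right _ _
  have h2 : x' ≤ x' + y' := Nat.le_add_right _ _
  generalize x + y = a at h h1
  generalize x' + y' = b at h h2
  rcases lt_trichotomy a b with hab | hab | hab
  · nlinarith
  · subst hab
    omega
  · nlinarith

private def InitC.Meets (c : InitC) (R : List Bool → ℕ → List ℕ → Prop) (i : Bool) : Prop :=
  (∃ n m D, m ≤ c.σ.length ∧ R (c.σ.take m) n D ∧ Above n D ∧ ∀ y ∈ D, y < c.s ∧ c.l y = !i) ∨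
    ∃ n, ∀ c' : InitC, c.Ext c' → ∀ m D, m ≤ c'.σ.length → R (c'.σ.take m) n D →
      ¬ Above n D

private theorem InitC.Meets.mono {c c' : InitC} {R : List Bool → ℕ → List ℕ → Prop} {i : Bool}
    (h : c.Meets R i) (hc : c.Ext c') : c'.Meets R i := by
  rcases h with ⟨n, m, D, hm, hR, hD, hy⟩ | ⟨n, hn⟩
  · left
    refine ⟨n, m, D, hm.trans hc.1.length_le, ?_, hD, fun y hyD => ?_⟩
    · have h1 : c'.σ.take m = c.σ.take m := by
        obtain ⟨r, hr⟩ := hc.1
        rw [← hr, List.take_append_of_le_length hm]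
      rw [h1]
      exact hR
    · obtain ⟨h1, h2⟩ := hy y hyD
      exact ⟨h1.trans_le hc.2.1, by rw [hc.2.2.1 y h1, h2]⟩
  · right
    exact ⟨n, fun c'' hc'' => hn c'' (hc.trans hc'')⟩

private theorem Init_meet (c : InitC) (R : List Bool → ℕ → List ℕ → Prop) (i : Bool) :
    ∃ c', c.Ext c' ∧ c'.Meets R i := by
  by_cases h : ∃ c', c.Ext c' ∧ ∃ m D, m ≤ c'.σ.length ∧ R (c'.σ.take m) c.s D ∧ Above c.s D
  · obtain ⟨c', hc, m, D, hm, hR, hD⟩ := h
    refine ⟨⟨c'.σ, c.s + D.sum + 1, fun x => if x < c.s then c.l x else !i⟩, ?_, Or.inl ?_⟩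
    · refine ⟨hc.1, ?_, fun x hx => if_pos hx, hc.2.2.2⟩
      show c.s ≤ c.s + D.sum + 1
      omega
    · refine ⟨c.s, m, D, hm, hR, hD, fun y hy => ⟨?_, ?_⟩⟩
      · have h1 : y ≤ D.sum := List.single_le_sum (fun _ _ => Nat.zero_le _) y hy
        show y < c.s + D.sum + 1
        omega
      · exact if_neg (not_lt.2 (hD y hy))
  · refine ⟨c, InitC.Ext.refl c, Or.inr ⟨c.s, fun c' hc m D hm hR hD => h ?_⟩⟩
    exact ⟨c', hc, m, D, hm, hR, hD⟩

open Classical in
private theorem Init_long (c : InitC) (N : ℕ) :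
    ∃ c', c.Ext c' ∧ N ≤ c'.σ.length ∧ N ≤ c'.s := by
  refine ⟨⟨c.σ ++ (List.range N).map fun p =>
    decide (∃ x y, x < c.s ∧ prc x y = c.σ.length + p ∧ c.l x = true), c.s + N, c.l⟩,
    ⟨List.prefix_append _ _, Nat.le_add_right _ _, fun _ _ => rfl, ?_⟩, ?_, ?_⟩
  · intro x y hx hl hl'
    simp only [List.length_append, List.length_map, List.length_range] at hl'
    simp only
    rw [List.getElem?_append_right hl]
    have h1 : prc x y - c.σ.length < N := by omega
    rw [List.getElem?_map, List.getElem?_range h1, Option.map_some]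
    congr 1
    have h2 : c.σ.length + (prc x y - c.σ.length) = prc x y := by omega
    rw [h2]
    cases hlx : c.l x with
    | true => exact decide_eq_true ⟨x, y, hx, rfl, hlx⟩
    | false =>
      refine decide_eq_false ?_
      rintro ⟨x', y', -, h3, h4⟩
      rw [Init_prc_inj h3, hlx] at h4
      exact absurd h4 (by simp)
  · simp only [List.length_append, List.length_map, List.length_range]
    omega
  · exact Nat.le_add_left _ _

private theorem Init_step (c : InitC) (R : List Bool → ℕ → List ℕ → Prop) (i : Bool) (N : ℕ) :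
    ∃ c', c.Ext c' ∧ N ≤ c'.σ.length ∧ N ≤ c'.s ∧ c'.Meets R i := by
  obtain ⟨c1, h1, h2⟩ := Init_meet c R i
  obtain ⟨c2, h3, h4, h5⟩ := Init_long c1 N
  exact ⟨c2, h1.trans h3, h4, h5, h2.mono h3⟩

theorem exists_init : ∃ (Y : Set ℕ) (l : ℕ → Bool), (∀ x, ∃ s, ∀ y, s ≤ y → clr Y x y = l x) ∧
    ∀ i : Bool, HI {x | l x = i} Y := by
  classical
  obtain ⟨E, hE, hEs⟩ := exists_enumR
  choose f hf using Init_step
  let c : ℕ → InitC := fun k => Nat.rec ⟨[], 0, fun _ => false⟩
    (fun k c => f c (E (k / 2)) (decide (k % 2 = 1)) k) k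
  have hc : ∀ k, (c k).Ext (c (k + 1)) ∧ k ≤ (c (k + 1)).σ.length ∧ k ≤ (c (k + 1)).s ∧
      (c (k + 1)).Meets (E (k / 2)) (decide (k % 2 = 1)) := fun k => hf (c k) _ _ _
  have hmono : ∀ k d, (c k).Ext (c (k + d)) := by
    intro k d
    induction d with
    | zero => exact InitC.Ext.refl _
    | succ d ih => exact ih.trans (hc (k + d)).1
  have hmono' : ∀ {k k'}, k ≤ k' → (c k).Ext (c k') := by
    intro k k' h
    obtain ⟨d, rfl⟩ := Nat.exists_eq_add_of_le h
    exact hmono k d
  let Y : Set ℕ := {n | ∃ k, (c k).σ[n]? = some true}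
  have hY : ∀ k n, n < (c k).σ.length → (c k).σ[n]? = some (decide (n ∈ Y)) := by
    intro k n hn
    by_cases hnY : n ∈ Y
    · obtain ⟨k', hk'⟩ := hnY
      have hn' : n < (c k').σ.length := by
        by_contra hcon
        rw [List.getElem?_eq_none (not_lt.1 hcon)] at hk'
        exact absurd hk' (by simp)
      have h1 := Init_getElem (hmono' (le_max_left k k')).1 hn
      have h2 := Init_getElem (hmono' (le_max_right k k')).1 hn'
      have hnY' : n ∈ Y := ⟨k', hk'⟩
      rw [← h1, h2, hk', decide_eq_true hnY']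
    · rw [decide_eq_false hnY]
      rw [List.getElem?_eq_getElem hn]
      cases hb : (c k).σ[n] with
      | false => rfl
      | true =>
        exfalso
        apply hnY
        exact ⟨k, by rw [List.getElem?_eq_getElem hn, hb]⟩
  have hpre : ∀ k m, m ≤ (c k).σ.length → (c k).σ.take m = pre Y m := by
    intro k m hm
    apply List.ext_getElem?
    intro n
    rcases lt_or_ge n m with h | h
    · rw [List.getElem?_take_of_lt h, hY k n (h.trans_le hm), getElem?_pre Y m n h]
    · rw [List.getElem?_eq_none (by simp; omega), List.getElem?_eq_none (by simp; omega)]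
  let l : ℕ → Bool := fun x => (c (x + 2)).l x
  have hl : ∀ k x, x < (c k).s → (c k).l x = l x := by
    intro k x hx
    have h1 := (hmono' (le_max_left k (x + 2))).2.2.1 x hx
    have h2 := (hmono' (le_max_right k (x + 2))).2.2.1 x
      (lt_of_lt_of_le (Nat.lt_succ_self x) (hc (x + 1)).2.2.1)
    rw [← h1, h2]
  refine ⟨Y, l, ?_, ?_⟩
  · intro x
    refine ⟨(c (x + 2)).σ.length, fun y hy => ?_⟩
    have hxs : x < (c (x + 2)).s := lt_of_lt_of_le (Nat.lt_succ_self x) (hc (x + 1)).2.2.1
    have hp : (c (x + 2)).σ.length ≤ prc x y := by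
      refine hy.trans ?_
      unfold prc
      nlinarith [Nat.zero_le x, Nat.zero_le y, Nat.le_mul_self y]
    have hlen : prc x y < (c (max (x + 2) (prc x y + 2))).σ.length := by
      have h1 : prc x y + 1 ≤ (c (prc x y + 2)).σ.length := (hc (prc x y + 1)).2.1
      have h2 := (hmono' (le_max_right (x + 2) (prc x y + 2))).1.length_le
      omega
    have h3 := (hmono' (le_max_left (x + 2) (prc x y + 2))).2.2.2 x y hxs hp hlen
    rw [hY _ _ hlen] at h3
    exact Option.some_injective _ h3
  · intro i R hR hall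
    obtain ⟨e, he⟩ := hEs R hR
    obtain ⟨k, hk1, hk2⟩ : ∃ k, k / 2 = e ∧ decide (k % 2 = 1) = i := by
      cases i with
      | true => exact ⟨2 * e + 1, by omega, by simp⟩
      | false => exact ⟨2 * e, by omega, by simp⟩
    have hM := (hc k).2.2.2
    rw [hk1, hk2, he] at hM
    rcases hM with ⟨n, m, D, hm, hRD, hD, hy⟩ | ⟨n, hn⟩
    · refine ⟨n, m, D, ?_, hD, fun y hyD hmem => ?_⟩
      · rw [← hpre (k + 1) m hm]
        exact hRD
      · obtain ⟨h1, h2⟩ := hy y hyD
        rw [hl (k + 1) y h1] at h2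
        have h3 : l y = i := hmem
        rw [h3] at h2
        cases i <;> simp at h2
    · exfalso
      obtain ⟨m, D, hRD, hD⟩ := hall n
      have hlen : m ≤ (c (max (k + 1) (m + 1))).σ.length := by
        have h1 := (hc m).2.1
        have h2 := (hmono' (le_max_right (k + 1) (m + 1))).1.length_le
        omega
      refine hn _ (hmono' (le_max_left (k + 1) (m + 1))) m D hlen ?_ hD
      rw [hpre _ _ hlen]
      exact hRD

end Pool.Agent.Lib.MP_b4a791_lc
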