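import Pool.Agent.Lib.MP_b4a791_lc.C.Ext
import Pool.Agent.Lib.MP_b4a791_lc.C.HIL

/-! Turing reducibility of thinned sets. -/

namespace Pool.Agent.Lib.MP_b4a791_lc

open Classical in
private theorem Thin_getElem? (W : Set ℕ) (n i : ℕ) :
    (pre W n)[i]? = if i < n then some (decide (i ∈ W)) else none := by
  split_ifs with h
  · exact getElem?_pre W n i h
  · rw [List.getElem?_eq_none]
    rw [length_pre]
    omega

open Classical in
private theorem Thin_filter (W : Set ℕ) (n : ℕ) (l : List ℕ)
    (h : (l.filterMap fun i => (pre W n)[i]?).length = l.length) :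
    (l.filterMap fun i => (pre W n)[i]?) = l.map fun i => decide (i ∈ W) := by
  induction l with
  | nil => rfl
  | cons a l ih =>
    by_cases ha : a < n
    · have h1 : (pre W n)[a]? = some (decide (a ∈ W)) := getElem?_pre W n a ha
      have h2 : ((a :: l).filterMap fun i => (pre W n)[i]?) =
          decide (a ∈ W) :: l.filterMap fun i => (pre W n)[i]? := by
        rw [List.filterMap_cons, h1]
      rw [h2] at h ⊢
      rw [List.map_cons, ih (by simpa using h)]
    · exfalso
      have h1 : (pre W n)[a]? = none := by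
        rw [Thin_getElem?, if_neg ha]
      have h2 : ((a :: l).filterMap fun i => (pre W n)[i]?) =
          l.filterMap fun i => (pre W n)[i]? := by
        rw [List.filterMap_cons, h1]
      rw [h2, List.length_cons] at h
      have h3 := List.length_filterMap_le (fun i => (pre W n)[i]?) l
      omega

open Classical in
private theorem Thin_all (W : Set ℕ) (n : ℕ) (l : List ℕ) (h : ∀ i ∈ l, i < n) :
    (l.filterMap fun i => (pre W n)[i]?) = l.map fun i => decide (i ∈ W) := by
  induction l with
  | nil => rfl
  | cons a l ih =>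
    have h1 : (pre W n)[a]? = some (decide (a ∈ W)) :=
      getElem?_pre W n a (h a List.mem_cons_self)
    rw [List.filterMap_cons, h1, List.map_cons]
    show _ :: _ = _
    rw [ih fun i hi => h i (List.mem_cons_of_mem _ hi)]

open Classical in
/-- Truth table reductions. -/
private theorem Thin_tt {W S : Set ℕ} (f : ℕ → List ℕ) (hf : Primrec f) (b : ℕ → List Bool → Bool)
    (hb : Primrec₂ b) (h : ∀ x, b x ((f x).map fun i => decide (i ∈ W)) = decide (x ∈ S)) :
    TRed S W := by
  have hF : Primrec fun p : List Bool × ℕ => (f p.2).filterMap fun i => p.1[i]? :=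
    Primrec.listFilterMap (hf.comp Primrec.snd)
      (Primrec.list_getElem?.comp (Primrec.fst.comp Primrec.fst) Primrec.snd).to₂
  refine cv (fun σ x => if ((f x).filterMap fun i => σ[i]?).length = (f x).length then
    some (b x ((f x).filterMap fun i => σ[i]?)) else none) ?_ ?_ ?_
  · refine Primrec.ite (Primrec.eq.comp (Primrec.list_length.comp hF)
      (Primrec.list_length.comp (hf.comp Primrec.snd))) ?_ (Primrec.const none)
    exact Primrec.option_some.comp (hb.comp Primrec.snd hF)
  · intro x
    refine ⟨(f x).sum + 1, ?_⟩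
    have h1 := Thin_all W ((f x).sum + 1) (f x) fun i hi =>
      Nat.lt_succ_of_le (List.le_sum_of_mem hi)
    simp only [h1, List.length_map, if_true]
    rfl
  · intro x n c hc
    by_cases hl : ((f x).filterMap fun i => (pre W n)[i]?).length = (f x).length
    · rw [if_pos hl, Thin_filter W n _ hl, h x] at hc
      exact (Option.some_injective _ hc).symm
    · rw [if_neg hl] at hc
      exact absurd hc (by simp)

private theorem Thin_even (X Y : Set ℕ) (x : ℕ) : 2 * x ∈ join X Y ↔ x ∈ X := by
  constructor
  · rintro (⟨m, hm, h⟩ | ⟨m, hm, h⟩)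
    · have : x = m := by omega
      rwa [this]
    · omega
  · exact fun h => Or.inl ⟨x, h, rfl⟩

private theorem Thin_odd (X Y : Set ℕ) (x : ℕ) : 2 * x + 1 ∈ join X Y ↔ x ∈ Y := by
  constructor
  · rintro (⟨m, hm, h⟩ | ⟨m, hm, h⟩)
    · omega
    · have : x = m := by omega
      rwa [this]
  · exact fun h => Or.inr ⟨x, h, rfl⟩

private theorem Thin_dbl : Primrec fun x : ℕ => 2 * x :=
  Primrec.nat_mul.comp (Primrec.const 2) Primrec.id

private theorem Thin_dbl1 : Primrec fun x : ℕ => 2 * x + 1 := Primrec.succ.comp Thin_dbl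

/-- `W = join Z Y` contains the coloring coded by `Y`. -/
theorem tred_thin (X Z Y : Set ℕ) (k : ℕ) (G : List ℕ) (v : ℕ → Bool) :
    TRed {x | x ∈ X ∧ k < x ∧ ∀ g ∈ G, clr Y g x = v g} (join X (join Z Y)) := by
  classical
  refine Thin_tt (fun x => 2 * x :: G.map fun g => 2 * (2 * prc g x + 1) + 1) ?_
    (fun x l => decide (k < x) && decide (l = true :: G.map v)) ?_ ?_
  · refine Primrec.list_cons.comp Thin_dbl (Primrec.list_map (Primrec.const G) ?_)
    have h1 : Primrec fun p : ℕ × ℕ => prc p.2 p.1 := by
      unfold prc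
      have h2 : Primrec fun p : ℕ × ℕ => p.2 + p.1 := Primrec.nat_add.comp Primrec.snd Primrec.fst
      exact Primrec.nat_add.comp (Primrec.nat_mul.comp h2 h2) Primrec.snd
    exact (Thin_dbl1.comp (Thin_dbl1.comp h1)).to₂
  · have h1 : Primrec fun p : ℕ × List Bool => decide (k < p.1) :=
      (Primrec.nat_lt.comp (Primrec.const k) Primrec.fst).decide
    have h2 : Primrec fun p : ℕ × List Bool => decide (p.2 = true :: G.map v) :=
      (Primrec.eq.comp Primrec.snd (Primrec.const _)).decide
    exact (Primrec.and.comp h1 h2).to₂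
  · intro x
    rw [Bool.eq_iff_iff]
    simp only [List.map_cons, List.map_map, Bool.and_eq_true, decide_eq_true_eq,
      List.cons.injEq, Thin_even, Set.mem_ofPred_eq]
    have h1 : (G.map ((fun i => decide (i ∈ join X (join Z Y))) ∘ fun g =>
        2 * (2 * prc g x + 1) + 1) = G.map v) ↔ ∀ g ∈ G, clr Y g x = v g := by
      rw [List.map_inj_left]
      refine forall₂_congr fun g _ => ?_
      have h2 : decide (2 * (2 * prc g x + 1) + 1 ∈ join X (join Z Y)) = clr Y g x := by
        unfold clr
        rw [Bool.eq_iff_iff, decide_eq_true_eq, decide_eq_true_eq, Thin_odd, Thin_odd]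
      show decide (2 * (2 * prc g x + 1) + 1 ∈ join X (join Z Y)) = v g ↔ _
      rw [h2]
    rw [h1]
    tauto

/-- Intersections with a set or its complement. -/
theorem tred_inter (X D W : Set ℕ) : TRed (X ∩ D) (join D (join X W)) := by
  classical
  refine Thin_tt (fun x => [2 * (2 * x) + 1, 2 * x]) ?_ (fun _ l => decide (l = [true, true])) ?_ ?_
  · exact Primrec.list_cons.comp (Thin_dbl1.comp Thin_dbl)
      (Primrec.list_cons.comp Thin_dbl (Primrec.const []))
  · have h1 : Primrec fun p : ℕ × List Bool => decide (p.2 = [true, true]) :=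
      (Primrec.eq.comp Primrec.snd (Primrec.const _)).decide
    exact h1.to₂
  · intro x
    rw [Bool.eq_iff_iff]
    simp [Thin_even, Thin_odd]

theorem tred_diff (X D W : Set ℕ) : TRed (X \ D) (join D (join X W)) := by
  classical
  refine Thin_tt (fun x => [2 * (2 * x) + 1, 2 * x]) ?_ (fun _ l => decide (l = [true, false])) ?_ ?_
  · exact Primrec.list_cons.comp (Thin_dbl1.comp Thin_dbl)
      (Primrec.list_cons.comp Thin_dbl (Primrec.const []))
  · have h1 : Primrec fun p : ℕ × List Bool => decide (p.2 = [true, false]) :=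
      (Primrec.eq.comp Primrec.snd (Primrec.const _)).decide
    exact h1.to₂
  · intro x
    rw [Bool.eq_iff_iff]
    simp [Thin_even, Thin_odd]

end Pool.Agent.Lib.MP_b4a791_lc
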