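import Pool.Agent.Lib.MP_b4a791_lc.C.MPlus
import Pool.Agent.Lib.MP_b4a791_lc.C.Thin
import Pool.Agent.Lib.MP_b4a791_lc.C.Basis

/-! One requirement of the Mathias forcing. -/

namespace Pool.Agent.Lib.MP_b4a791_lc

/-- What a condition promises about a requirement. -/
def Forces (Y W A : Set ℕ) (R : List Bool → ℕ → List ℕ → Prop) (F : List ℕ) (X : Set ℕ) : Prop :=
  ∀ H : Set ℕ, els F ⊆ H → H ⊆ els F ∪ X → Av (clr Y) H → Req A (join H W) R

private theorem MStep_pre_congr {H H' W : Set ℕ} {m : ℕ} (h : ∀ x < m, (x ∈ H ↔ x ∈ H')) :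
    pre (join H W) m = pre (join H' W) m := by
  classical
  unfold pre
  refine List.map_congr_left fun i hi => ?_
  rw [List.mem_range] at hi
  rw [decide_eq_decide]
  constructor
  · rintro (⟨x, hx, rfl⟩ | hx)
    · exact Or.inl ⟨x, (h x (by omega)).1 hx, rfl⟩
    · exact Or.inr hx
  · rintro (⟨x, hx, rfl⟩ | hx)
    · exact Or.inl ⟨x, (h x (by omega)).2 hx, rfl⟩
    · exact Or.inr hx

private theorem MStep_sub {c : ℕ → ℕ → Bool} {F : List ℕ} {X X' : Set ℕ} (h : MC c F X)
    (hs : X' ⊆ X) (hu : Unb X') : MC c F X' :=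
  ⟨hu, fun a ha x hx => h.lt a ha x (hs hx), fun a ha x hx y hy => h.const a ha x (hs hx) y (hs hy),
    fun x hx => h.av x (hs hx)⟩

/-- Case (a): some set `D'` (a coloring of `X`) has no usable finite set for `n`. Take one with
`basis`, and restrict `X` to the infinite one of `X ∩ D'`, `X \ D'`. -/
theorem mstep_a {Z Y : Set ℕ} {A : Bool → Set ℕ} {F : List ℕ} {X : Set ℕ}
    (hc : MC (clr Y) F X) (hA : ∀ i, HI (A i) (join X (join Z Y))) (i : Bool)
    {R : List Bool → ℕ → List ℕ → Prop} (hR : PR3 R) (n : ℕ)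
    (h : (PiC (join X (join Z Y)) (mtree F R n)).Nonempty) :
    ∃ X' ⊆ X, MC (clr Y) F X' ∧ (∀ i, HI (A i) (join X' (join Z Y))) ∧
      Forces Y (join Z Y) (A i) R F X' := by
  classical
  obtain ⟨D', hD', hHI⟩ := basis (pr2_mtree F hR n) h hA
  rw [mem_piC_mtree] at hD'
  have hW : TRed (join Z Y) (join D' (join X (join Z Y))) :=
    (tred_join_right X (join Z Y)).trans (tred_join_right D' _)
  -- the main argument for a subset `X'` decided by `D'`
  have main : ∀ X' : Set ℕ, X' ⊆ X → ((∀ x ∈ X', x ∈ D') ∨ ∀ x ∈ X', x ∉ D') →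
      Forces Y (join Z Y) (A i) R F X' := by
    intro X' hX' hdec H hFH hHX hav hall
    obtain ⟨m, D, hRD, hab⟩ := hall n
    exfalso
    obtain ⟨E, hE⟩ : ∃ E : List ℕ, ∀ x, x ∈ E ↔ x < m ∧ x ∈ H ∧ x ∈ X' :=
      ⟨(List.range m).filter fun x => decide (x ∈ H ∧ x ∈ X'), fun x => by
        simp [List.mem_filter]⟩
    have h1 : pre (join (els (F ++ E)) (join Z Y)) m = pre (join H (join Z Y)) m := by
      refine MStep_pre_congr fun x hx => ?_
      change x ∈ F ++ E ↔ x ∈ H
      rw [List.mem_append, hE]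
      constructor
      · rintro (h2 | h2)
        · exact hFH h2
        · exact h2.2.1
      · intro h2
        rcases hHX h2 with h3 | h3
        · exact Or.inl h3
        · exact Or.inr ⟨hx, h2, h3⟩
    have h2 : ∃ k l, use F R (pre (join X (join Z Y)) k) (pre D' l) n E m D := by
      rw [use_pre]
      refine ⟨fun e he => hX' ((hE e).1 he).2.2, ?_, ?_, ?_, hab⟩
      · intro x0 h0 x1 h1 x2 h2 x3 h3
        exact hav x0 ((hE x0).1 h0).2.1 x1 ((hE x1).1 h1).2.1 x2 ((hE x2).1 h2).2.1 x3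
          ((hE x3).1 h3).2.1
      · rcases hdec with h3 | h3
        · exact Or.inl fun e he => h3 e ((hE e).1 he).2.2
        · exact Or.inr fun e he => h3 e ((hE e).1 he).2.2
      · rw [h1]
        exact hRD
    obtain ⟨k, l, h3⟩ := h2
    exact hD' k l E m D h3
  by_cases hu : Unb (X ∩ D')
  · refine ⟨X ∩ D', Set.inter_subset_left, MStep_sub hc Set.inter_subset_left hu, fun i => ?_,
      main _ Set.inter_subset_left (Or.inl fun x hx => hx.2)⟩
    exact (hHI i).mono (join_tred (tred_inter X D' (join Z Y)) hW)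
  · have hu' : Unb (X \ D') := by
      unfold Unb at hu
      push Not at hu
      obtain ⟨N, hN⟩ := hu
      intro a
      obtain ⟨x, hx, hlt⟩ := hc.unb (max a N)
      refine ⟨x, ⟨hx, fun hxD => ?_⟩, lt_of_le_of_lt (le_max_left a N) hlt⟩
      exact absurd (hN x ⟨hx, hxD⟩) (not_le.2 (lt_of_le_of_lt (le_max_right a N) hlt))
    refine ⟨X \ D', Set.sdiff_subset, MStep_sub hc Set.sdiff_subset hu', fun i => ?_,
      main _ Set.sdiff_subset (Or.inr fun x hx => hx.2)⟩
    exact (hHI i).mono (join_tred (tred_diff X D' (join Z Y)) hW)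

/-- Case (b): hyperimmunity of `A i` applied to `mplus` gives `n, k, Dp`; thin `X` above `k` so that
the rows of all numbers `< k` are constant on `X'` (`exists_thin` with `G = List.range k`), let `δ`
be the string of these limit colors; `mplus` gives a usable `E`, homogeneous for `δ`, and `D ⊆ Dp`
is disjoint from `A i`. New condition `(F ++ E, X')` by `MC.extend`. For `H` between `F ++ E` and
`F ++ E ∪ X'` the strings of length `m` of `join H W` and `join (F ++ E) W` agree. -/
theorem mstep_b {Z Y : Set ℕ} {A : Bool → Set ℕ} {F : List ℕ} {X : Set ℕ}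
    (hc : MC (clr Y) F X) (hA : ∀ i, HI (A i) (join X (join Z Y))) (i : Bool)
    {R : List Bool → ℕ → List ℕ → Prop} (hR : PR3 R)
    (h : ∀ n, ¬ (PiC (join X (join Z Y)) (mtree F R n)).Nonempty) :
    ∃ E X', (∀ e ∈ E, e ∈ X) ∧ X' ⊆ X ∧ MC (clr Y) (F ++ E) X' ∧
      (∀ i, HI (A i) (join X' (join Z Y))) ∧ Forces Y (join Z Y) (A i) R (F ++ E) X' := by
  classical
  have hall : ∀ n, ∃ k Dp, mplus F R (pre (join X (join Z Y)) k) n Dp ∧ Above n Dp := by
    intro n
    refine exists_mplus fun D' => ?_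
    by_contra hcon
    push Not at hcon
    exact h n ⟨D', mem_piC_mtree.2 hcon⟩
  obtain ⟨n, k, Dp, hmp, _, hDp⟩ := hA i _ (pr3_mplus F hR) hall
  obtain ⟨v, hv⟩ := exists_thin (clr Y) hc.unb k (List.range k)
  obtain ⟨D', hD'⟩ : ∃ D' : Set ℕ, D' = {x | v x = true} := ⟨_, rfl⟩
  have hlen : (pre (join X (join Z Y)) k).length = k := length_pre _ _
  obtain ⟨hm1, hm2, _⟩ := hmp
  rw [hlen] at hm1 hm2
  have hδ : pre D' k ∈ allStr k := (mem_allStr k _).2 (length_pre _ _)
  obtain ⟨E, hE, m, hm, D, hD, huse⟩ := hm1 _ hδ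
  have hDDp := hm2 D hD m hm E hE _ hδ huse
  obtain ⟨hEX, hav, hhom, hRD, hab⟩ := use_pre.1 ⟨k, k, huse⟩
  have hEk : ∀ e ∈ E, e < k := by
    intro e he
    have := (huse.1 e he).1
    rw [hlen] at this
    omega
  have hmk : m < k := by
    have := huse.2.2.2.2.1
    rw [hlen] at this
    omega
  obtain ⟨b, hb⟩ : ∃ b, ∀ e ∈ E, v e = b := by
    rcases hhom with h1 | h1
    · refine ⟨true, fun e he => ?_⟩
      have := h1 e he
      rw [hD'] at this
      exact this
    · refine ⟨false, fun e he => ?_⟩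
      have := h1 e he
      rw [hD'] at this
      have h2 : ¬ v e = true := this
      simpa using h2
  refine ⟨E, {x | x ∈ X ∧ k < x ∧ ∀ g ∈ List.range k, clr Y g x = v g}, hEX, fun x hx => hx.1,
    hc.extend hEX hav (fun x hx => hx.1) hv ?_ b ?_, ?_, ?_⟩
  · intro e he x hx
    exact (hEk e he).trans hx.2.1
  · intro e he x hx
    rw [hx.2.2 e (List.mem_range.2 (hEk e he)), hb e he]
  · intro j
    exact (hA j).mono (join_tred (tred_thin X Z Y k (List.range k) v)
      (tred_join_right X (join Z Y)))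
  · intro H hFH hHX _ _
    refine ⟨n, m, D, ?_, hab, fun y hy => hDp y (hDDp y hy)⟩
    have h1 : pre (join H (join Z Y)) m = pre (join (els (F ++ E)) (join Z Y)) m := by
      refine MStep_pre_congr fun x hx => ?_
      constructor
      · intro h2
        rcases hHX h2 with h3 | h3
        · exact h3
        · have := h3.2.1
          omega
      · intro h2
        exact hFH h2
    rw [h1]
    exact hRD

theorem mstep {Z Y : Set ℕ} {A : Bool → Set ℕ} {F : List ℕ} {X : Set ℕ}
    (hc : MC (clr Y) F X) (hA : ∀ i, HI (A i) (join X (join Z Y))) (i : Bool)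
    {R : List Bool → ℕ → List ℕ → Prop} (hR : PR3 R) :
    ∃ E X', (∀ e ∈ E, e ∈ X) ∧ X' ⊆ X ∧ MC (clr Y) (F ++ E) X' ∧
      (∀ i, HI (A i) (join X' (join Z Y))) ∧ Forces Y (join Z Y) (A i) R (F ++ E) X' := by
  by_cases h : ∀ n, ¬ (PiC (join X (join Z Y)) (mtree F R n)).Nonempty
  · exact mstep_b hc hA i hR h
  · push Not at h
    obtain ⟨n, hn⟩ := h
    obtain ⟨X', h1, h2, h3, h4⟩ := mstep_a hc hA i hR n hn
    exact ⟨[], X', by simp, h1, by simpa using h2, h3, by simpa using h4⟩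

/-- Adding one point. -/
theorem mgrow {Z Y : Set ℕ} {A : Bool → Set ℕ} {F : List ℕ} {X : Set ℕ}
    (hc : MC (clr Y) F X) (hA : ∀ i, HI (A i) (join X (join Z Y))) :
    ∃ e X', e ∈ X ∧ X' ⊆ X ∧ MC (clr Y) (F ++ [e]) X' ∧
      (∀ i, HI (A i) (join X' (join Z Y))) := by
  obtain ⟨e, he, _⟩ := hc.unb 0
  obtain ⟨v, hv⟩ := exists_thin (clr Y) hc.unb e [e]
  refine ⟨e, {x | x ∈ X ∧ e < x ∧ ∀ g ∈ [e], clr Y g x = v g}, he, fun x hx => hx.1,
    hc.extend ?_ ?_ (fun x hx => hx.1) hv ?_ (v e) ?_, fun j => ?_⟩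
  · intro a ha
    rw [List.mem_singleton.1 ha]
    exact he
  · intro x0 h0 x1 h1 x2 _ x3 _ hcopy
    have h2 : x0 = e := List.mem_singleton.1 h0
    have h3 : x1 = e := List.mem_singleton.1 h1
    have := hcopy.1
    omega
  · intro a ha x hx
    rw [List.mem_singleton.1 ha]
    exact hx.2.1
  · intro a ha x hx
    rw [hx.2.2 a ha, List.mem_singleton.1 ha]
  · exact (hA j).mono (join_tred (tred_thin X Z Y e [e] v) (tred_join_right X (join Z Y)))

end Pool.Agent.Lib.MP_b4a791_lc
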