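import Pool.Agent.Lib.MP_b4a791_lc.C.Sol
import Pool.Agent.Lib.MP_b4a791_lc.C.Init
import Pool.Agent.Lib.MP_b4a791_lc.D.Enum

/-! The second model: closed under `RT²₂(1302)`, not under `RT²₂`. -/

namespace Pool.Agent.Lib.MP_b4a791_lc

private theorem model_step {A : Bool → Set ℕ} (Z Y : Set ℕ) : ∃ Z' : Set ℕ,
    ((∀ i, HI (A i) Z) → ∀ i, HI (A i) Z') ∧ TRed Z Z' ∧
      ((∀ i, HI (A i) Z) → TRed Y Z → ∃ H, TRed H Z' ∧ Unb H ∧ Av (clr Y) H) := by
  by_cases h : (∀ i, HI (A i) Z) ∧ TRed Y Z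
  · obtain ⟨H, h1, h2, h3⟩ := exists_sol' h.1 h.2
    exact ⟨join H Z, fun _ => h3, tred_join_right H Z, fun _ _ => ⟨H, tred_join_left H Z, h1, h2⟩⟩
  · exact ⟨Z, fun h' => h', TRed.refl Z, fun h1 h2 => absurd ⟨h1, h2⟩ h⟩

/-- The history of the construction. -/
private def model_S (nx : Set ℕ → Set ℕ → Set ℕ) (f : ℕ → Set ℕ → Set ℕ) (X0 : Set ℕ) :
    ℕ → ℕ → Set ℕ
  | 0 => fun _ => X0
  | m + 1 => fun j => if j ≤ m then model_S nx f X0 m j else
      nx (model_S nx f X0 m m) (f m.unpair.1 (model_S nx f X0 m m.unpair.2))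

private theorem model_S_eq (nx : Set ℕ → Set ℕ → Set ℕ) (f : ℕ → Set ℕ → Set ℕ) (X0 : Set ℕ)
    {j m : ℕ} (h : j ≤ m) : model_S nx f X0 m j = model_S nx f X0 j j := by
  induction h with
  | refl => rfl
  | @step m h ih =>
    have h1 : model_S nx f X0 (m + 1) j = if j ≤ m then model_S nx f X0 m j else
      nx (model_S nx f X0 m m) (f m.unpair.1 (model_S nx f X0 m m.unpair.2)) := rfl
    have h2 : j ≤ m := h
    rw [h1, if_pos h2, ih]

private theorem model_S_succ (nx : Set ℕ → Set ℕ → Set ℕ) (f : ℕ → Set ℕ → Set ℕ) (X0 : Set ℕ)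
    (m : ℕ) : model_S nx f X0 (m + 1) (m + 1) = nx (model_S nx f X0 m m)
      (f m.unpair.1 (model_S nx f X0 m.unpair.2 m.unpair.2)) := by
  have h1 : model_S nx f X0 (m + 1) (m + 1) = if m + 1 ≤ m then model_S nx f X0 m (m + 1) else
    nx (model_S nx f X0 m m) (f m.unpair.1 (model_S nx f X0 m m.unpair.2)) := rfl
  rw [h1, if_neg (by omega), model_S_eq nx f X0 (Nat.unpair_right_le m)]

/-- An increasing sequence preserving the hyperimmunity of both sets and solving all instances.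
`Y` ranges over all sets recursive in some `X m`, which are countably many by `nf` and
`exists_enum`. -/
theorem exists_chain {A : Bool → Set ℕ} {X0 : Set ℕ} (h0 : ∀ i, HI (A i) X0) :
    ∃ X : ℕ → Set ℕ, X 0 = X0 ∧ (∀ m, TRed (X m) (X (m + 1))) ∧ (∀ m i, HI (A i) (X m)) ∧
      ∀ m Y, TRed Y (X m) → ∃ m' H, TRed H (X m') ∧ Unb H ∧ Av (clr Y) H := by
  classical
  obtain ⟨F, -, hF⟩ := exists_enum
  choose nx hnx1 hnx2 hnx3 using (model_step (A := A))
  set f : ℕ → Set ℕ → Set ℕ := fun e Z => {x | ∃ n, F e (pre Z n) x = some true} with hf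
  have hs := model_S_succ nx f X0
  set X : ℕ → Set ℕ := fun m => model_S nx f X0 m m with hX
  have hs' : ∀ m, X (m + 1) = nx (X m) (f m.unpair.1 (X m.unpair.2)) := hs
  have h1 : ∀ m, TRed (X m) (X (m + 1)) := fun m => by
    rw [hs' m]
    exact hnx2 _ _
  have h2 : ∀ m, ∀ i, HI (A i) (X m) := fun m => by
    induction m with
    | zero => exact h0
    | succ m ih =>
      rw [hs' m]
      exact hnx1 _ _ ih
  have h3 : ∀ m n, m ≤ n → TRed (X m) (X n) := fun m n hmn => by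
    induction hmn with
    | refl => exact TRed.refl _
    | step _ ih => exact ih.trans (h1 _)
  refine ⟨X, rfl, h1, h2, fun j Y hY => ?_⟩
  obtain ⟨R, hR, hm, hd⟩ := nf hY
  obtain ⟨e, rfl⟩ := hF R hR hm
  have hfY : f e (X j) = Y := by
    ext x
    obtain ⟨n, hn⟩ := hd x
    constructor
    · rintro ⟨n', hn'⟩
      have e1 := hm _ _ _ _ (pre_prefix (X j) (le_max_left n n')) hn
      have e2 := hm _ _ _ _ (pre_prefix (X j) (le_max_right n n')) hn'
      rw [e1] at e2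
      exact of_decide_eq_true (Option.some_injective _ e2)
    · intro hx
      exact ⟨n, by rw [hn, decide_eq_true hx]⟩
  have h4 : X (Nat.pair e j + 1) = nx (X (Nat.pair e j)) Y := by
    rw [hs', Nat.unpair_pair, hfY]
  obtain ⟨H, hH1, hH2, hH3⟩ := hnx3 (X (Nat.pair e j)) Y (h2 _)
    (hY.trans (h3 _ _ (Nat.right_le_pair e j)))
  exact ⟨Nat.pair e j + 1, H, by rw [h4]; exact hH1, hH2, hH3⟩

/-- A homogeneous set of color `b` of a stable coloring is contained in the limit set. -/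
theorem homog_subset {Y : Set ℕ} {l : ℕ → Bool} (hl : ∀ x, ∃ s, ∀ y, s ≤ y → clr Y x y = l x)
    {H : Set ℕ} (hu : Unb H) {b : Bool} (hb : ∀ x ∈ H, ∀ y ∈ H, x < y → clr Y x y = b) :
    H ⊆ {x | l x = b} := by
  intro x hx
  obtain ⟨s, hs⟩ := hl x
  obtain ⟨y, hy, hlt⟩ := hu (max s x)
  have h1 := hs y ((le_max_left s x).trans hlt.le)
  have h2 := hb x hx y hy ((le_max_right s x).trans_lt hlt)
  exact h1.symm.trans h2

theorem modelC : ∃ X : ℕ → Set ℕ, (∀ m, TRed (X m) (X (m + 1))) ∧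
    (∀ m Y, TRed Y (X m) → ∃ m' H, TRed H (X m') ∧ Unb H ∧ Av (clr Y) H) ∧
    ∃ Y, TRed Y (X 0) ∧ ∀ m H, TRed H (X m) → Unb H → ∀ b : Bool,
      ¬ ∀ x ∈ H, ∀ y ∈ H, x < y → clr Y x y = b := by
  obtain ⟨Y, l, hl, hHI⟩ := exists_init
  obtain ⟨X, h0, h1, h2, h3⟩ := exists_chain (A := fun i => {x | l x = i}) hHI
  refine ⟨X, h1, h3, Y, by rw [h0]; exact TRed.refl _, fun m H hH hu b hb => ?_⟩
  exact (h2 m b).no_subset hH hu (homog_subset hl hu hb)

end Pool.Agent.Lib.MP_b4a791_lc
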