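import Pool.Agent.Lib.MP_b4a791_lc.C.MStep

/-! The solution preserving hyperimmunity: alternate `mgrow` and `mstep` over all requirements. -/

namespace Pool.Agent.Lib.MP_b4a791_lc

/-- The conditions used in the construction. -/
private structure SolSt (Z Y : Set ℕ) (A : Bool → Set ℕ) where
  F : List ℕ
  X : Set ℕ
  mc : MC (clr Y) F X
  hi : ∀ i, HI (A i) (join X (join Z Y))

private theorem Sol_tred_univ (W : Set ℕ) : TRed Set.univ W := by
  classical
  refine cv' (fun _ _ => some true) (Primrec.const (some true)).to₂ ?_ ?_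
  · intro σ τ x b _ h
    exact h
  · intro x
    exact ⟨0, by simp⟩

theorem exists_sol {Z Y : Set ℕ} {A : Bool → Set ℕ} (hA : ∀ i, HI (A i) (join Z Y)) :
    ∃ H : Set ℕ, Unb H ∧ Av (clr Y) H ∧ ∀ i, HI (A i) (join H (join Z Y)) := by
  obtain ⟨E, hE, hEs⟩ := exists_enumR
  let idx : ℕ → Bool := fun s => decide (s % 2 = 1)
  have hstep : ∀ (s : ℕ) (st : SolSt Z Y A), ∃ st' : SolSt Z Y A,
      (∀ a ∈ st.F, a ∈ st'.F) ∧ (∀ a ∈ st'.F, a ∈ st.F ∨ a ∈ st.X) ∧ st'.X ⊆ st.X ∧
      (∃ e ∈ st'.F, e ∈ st.X) ∧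
      Forces Y (join Z Y) (A (idx s)) (E (s / 2)) st'.F st'.X := by
    intro s st
    obtain ⟨e, X1, he, hX1, hmc1, hhi1⟩ := mgrow st.mc st.hi
    obtain ⟨G, X2, hG, hX2, hmc2, hhi2, hf⟩ := mstep hmc1 hhi1 (idx s) (hE (s / 2))
    refine ⟨⟨(st.F ++ [e]) ++ G, X2, hmc2, hhi2⟩, ?_, ?_, hX2.trans hX1, ⟨e, ?_, he⟩, hf⟩
    · intro a ha
      exact List.mem_append_left _ (List.mem_append_left _ ha)
    · intro a ha
      rcases List.mem_append.1 ha with h1 | h1
      · rcases List.mem_append.1 h1 with h2 | h2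
        · exact Or.inl h2
        · rw [List.mem_singleton.1 h2]
          exact Or.inr he
      · exact Or.inr (hX1 (hG a h1))
    · exact List.mem_append_left _ (List.mem_append_right _ (List.mem_singleton.2 rfl))
  choose next hn1 hn2 hn3 hn4 hn5 using hstep
  have hstart : ∀ i, HI (A i) (join Set.univ (join Z Y)) := fun i =>
    (hA i).mono (join_tred (Sol_tred_univ _) (TRed.refl _))
  let seq : ℕ → SolSt Z Y A := fun s =>
    Nat.rec ⟨[], Set.univ, MC.start _, hstart⟩ (fun s st => next s st) s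
  have hseq : ∀ s, seq (s + 1) = next s (seq s) := fun s => rfl
  have hF : ∀ s, ∀ a ∈ (seq s).F, a ∈ (seq (s + 1)).F := by
    intro s
    rw [hseq]
    exact hn1 s (seq s)
  have hFmono : ∀ s t, s ≤ t → ∀ a ∈ (seq s).F, a ∈ (seq t).F := by
    intro s t hst
    induction t, hst using Nat.le_induction with
    | base => exact fun a ha => ha
    | succ t _ ih => exact fun a ha => hF t a (ih a ha)
  have hXmono : ∀ s t, s ≤ t → (seq t).X ⊆ (seq s).X := by
    intro s t hst
    induction t, hst using Nat.le_induction with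
    | base => exact subset_rfl
    | succ t _ ih =>
      rw [hseq]
      exact (hn3 t (seq t)).trans ih
  have hFX : ∀ s t, s ≤ t → ∀ a ∈ (seq t).F, a ∈ (seq s).F ∨ a ∈ (seq s).X := by
    intro s t hst
    induction t, hst using Nat.le_induction with
    | base => exact fun a ha => Or.inl ha
    | succ t hst' ih =>
      intro a ha
      rw [hseq] at ha
      rcases hn2 t (seq t) a ha with h1 | h1
      · exact ih a h1
      · exact Or.inr (hXmono s t hst' h1)
  have hbig : ∀ s, ∀ x ∈ (seq s).X, s ≤ x := by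
    intro s
    induction s with
    | zero => intro x _; exact Nat.zero_le x
    | succ s ih =>
      intro x hx
      obtain ⟨e, he1, he2⟩ := hn4 s (seq s)
      rw [← hseq] at he1
      exact lt_of_le_of_lt (ih e he2) ((seq (s + 1)).mc.lt e he1 x hx)
  have hav : Av (clr Y) (⋃ s, els (seq s).F) :=
    av_iUnion (fun s => (seq s).F) hF fun s => (seq s).mc.avF
  refine ⟨⋃ s, els (seq s).F, ?_, hav, ?_⟩
  · intro n
    obtain ⟨e, he1, he2⟩ := hn4 (n + 1) (seq (n + 1))
    rw [← hseq] at he1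
    exact ⟨e, Set.mem_iUnion.2 ⟨n + 1 + 1, he1⟩, hbig (n + 1) e he2⟩
  · intro i R hR
    obtain ⟨e, rfl⟩ := hEs R hR
    obtain ⟨s, hs1, hs2⟩ : ∃ s, idx s = i ∧ s / 2 = e := by
      cases i with
      | true => exact ⟨2 * e + 1, by simp [idx], by omega⟩
      | false => exact ⟨2 * e, by simp [idx], by omega⟩
    have hf := hn5 s (seq s)
    rw [hs1, hs2, ← hseq] at hf
    refine hf _ (fun a ha => Set.mem_iUnion.2 ⟨s + 1, ha⟩) ?_ hav
    intro a ha
    obtain ⟨t, ht⟩ := Set.mem_iUnion.1 ha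
    rcases le_total (s + 1) t with h1 | h1
    · exact hFX (s + 1) t h1 a ht
    · exact Or.inl (hFmono t (s + 1) h1 a ht)

/-- The form used for the model. -/
theorem exists_sol' {Z Y : Set ℕ} {A : Bool → Set ℕ} (hA : ∀ i, HI (A i) Z) (hY : TRed Y Z) :
    ∃ H : Set ℕ, Unb H ∧ Av (clr Y) H ∧ ∀ i, HI (A i) (join H Z) := by
  obtain ⟨H, h1, h2, h3⟩ := exists_sol (Z := Z) (Y := Y) (A := A)
    fun i => (hA i).mono (join_tred (TRed.refl _) hY)
  exact ⟨H, h1, h2, fun i => (h3 i).mono (join_tred (tred_join_left _ _)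
    ((tred_join_left _ _).trans (tred_join_right _ _)))⟩

end Pool.Agent.Lib.MP_b4a791_lc
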